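import Mathlib

/-!
# The analytic inequalities for the lower bound
-/

open scoped BigOperators
open Real

namespace Pool.Agent.W975.EA

/-- The log-sum inequality. -/
theorem logsum {ι : Type} (s : Finset ι) (u v : ι → ℝ) (V : ℝ)
    (hu : ∀ i ∈ s, 0 ≤ u i) (hv : ∀ i ∈ s, 0 < u i → 0 < v i)
    (hV : ∑ i ∈ s with 0 < u i, v i ≤ V) :
    (∑ i ∈ s, u i) * log ((∑ i ∈ s, u i) / V) ≤ ∑ i ∈ s, u i * log (u i / v i) := by
  classical
  by_cases h0 : ∑ i ∈ s, u i = 0
  · have h1 : ∀ i ∈ s, u i = 0 := (Finset.sum_eq_zero_iff_of_nonneg hu).1 h0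
    rw [h0, zero_mul]
    apply le_of_eq
    symm
    apply Finset.sum_eq_zero
    intro i hi
    rw [h1 i hi, zero_mul]
  · set U := ∑ i ∈ s, u i with hU
    have hU0 : 0 ≤ U := Finset.sum_nonneg hu
    have hUpos : 0 < U := lt_of_le_of_ne hU0 (Ne.symm h0)
    have hVpos : 0 < V := by
      obtain ⟨i, hi, hpos⟩ : ∃ i ∈ s, 0 < u i := by
        by_contra hcon
        push Not at hcon
        apply h0
        apply Finset.sum_eq_zero
        intro i hi
        exact le_antisymm (hcon i hi) (hu i hi)
      have h2 : v i ≤ ∑ i ∈ s with 0 < u i, v i := by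
        apply Finset.single_le_sum (f := v) (s := s.filter fun i => 0 < u i)
        · intro j hj
          rw [Finset.mem_filter] at hj
          exact (hv j hj.1 hj.2).le
        · rw [Finset.mem_filter]; exact ⟨hi, hpos⟩
      linarith [hv i hi hpos]
    set lam := U / V with hlam
    have hlampos : 0 < lam := div_pos hUpos hVpos
    have key : ∀ i ∈ s, u i * log lam + u i - lam * (if 0 < u i then v i else 0)
        ≤ u i * log (u i / v i) := by
      intro i hi
      by_cases hp : 0 < u i
      · have hvi := hv i hi hp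
        rw [if_pos hp]
        have h3 : 1 - (u i / (lam * v i))⁻¹ ≤ log (u i / (lam * v i)) :=
          one_sub_inv_le_log_of_pos (by positivity)
        have h4 : log (u i / (lam * v i)) = log (u i / v i) - log lam := by
          rw [← log_div (by positivity) (by positivity)]
          congr 1
          field_simp
        rw [h4] at h3
        have h5 : u i * (1 - (u i / (lam * v i))⁻¹) = u i - lam * v i := by
          field_simp
        have h6 := mul_le_mul_of_nonneg_left h3 hp.le
        rw [h5] at h6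
        linarith
      · have hz : u i = 0 := le_antisymm (not_lt.1 hp) (hu i hi)
        rw [if_neg hp, hz]
        simp
    calc U * log (U / V) = U * log lam + U - lam * V := by
          rw [hlam]; field_simp; ring
      _ ≤ U * log lam + U - lam * ∑ i ∈ s with 0 < u i, v i := by
          have := mul_le_mul_of_nonneg_left hV hlampos.le
          linarith
      _ = ∑ i ∈ s, (u i * log lam + u i - lam * (if 0 < u i then v i else 0)) := by
          rw [Finset.sum_sub_distrib, Finset.sum_add_distrib, ← Finset.sum_mul,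
            ← Finset.mul_sum, Finset.sum_filter]
      _ ≤ ∑ i ∈ s, u i * log (u i / v i) := Finset.sum_le_sum key

theorem binEntropy_sixteenth : binEntropy (1 / 16) ≤ 1 / 2 * log 2 := by
  have h1 : log ((1 : ℝ) / 16)⁻¹ = 4 * log 2 := by
    rw [show ((1 : ℝ) / 16)⁻¹ = 2 ^ 4 by norm_num, log_pow]
    norm_num
  have h2 : log (1 - (1 : ℝ) / 16)⁻¹ ≤ 4 / 15 * log 2 := by
    have : 15 * log (1 - (1 : ℝ) / 16)⁻¹ ≤ 4 * log 2 := by
      have e1 : 15 * log (1 - (1 : ℝ) / 16)⁻¹ = log ((1 - (1 : ℝ) / 16)⁻¹ ^ 15) := by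
        rw [log_pow]; norm_num
      have e2 : 4 * log (2 : ℝ) = log (2 ^ 4) := by rw [log_pow]; norm_num
      rw [e1, e2]
      apply log_le_log (by norm_num)
      norm_num
    linarith
  unfold binEntropy
  rw [h1]
  nlinarith

theorem binEntropy_small {q : ℝ} (h0 : 0 ≤ q) (h1 : q ≤ 1 / 16) :
    binEntropy q ≤ 1 / 2 * log 2 := by
  have hm := binEntropy_strictMonoOn.monotoneOn
  refine le_trans (hm ⟨h0, by norm_num at h1 ⊢; linarith⟩ ⟨by norm_num, by norm_num⟩ h1)
    binEntropy_sixteenth

theorem binEntropy_big {q : ℝ} (h0 : 15 / 16 ≤ q) (h1 : q ≤ 1) :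
    binEntropy q ≤ 1 / 2 * log 2 := by
  rw [← binEntropy_one_sub]
  exact binEntropy_small (by linarith) (by linarith)

theorem two_mul_le_two_pow {d : ℕ} (h : 1 ≤ d) : 2 * d ≤ 2 ^ d := by
  induction d, h using Nat.le_induction with
  | base => norm_num
  | succ n hn ih => rw [pow_succ]; omega

theorem big_pow {d : ℕ} (h : 13 ≤ d) : 512 * d ≤ 2 ^ d := by
  induction d, h using Nat.le_induction with
  | base => norm_num
  | succ n hn ih => rw [pow_succ]; omega

theorem log_ratio_ge {d c : ℕ} (hd : 1 ≤ d) (h : 2 ^ c * d ≤ 2 ^ d) :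
    c * log 2 ≤ log ((2 : ℝ) ^ d / d) := by
  rw [← log_pow]
  have hdpos : (0 : ℝ) < d := by exact_mod_cast hd
  apply log_le_log (by positivity)
  rw [le_div_iff₀ hdpos]
  exact_mod_cast h

theorem term_eq {p P : ℝ} (hp : 0 ≤ p) (hP : 0 < p → 0 < P) (C d : ℕ) (hd : 0 < p → 1 ≤ d) :
    p * log (p * (2 ^ C * 2 ^ d) / (P * d))
      = p * (log p - log P + C * log 2 + log ((2 : ℝ) ^ d / d)) := by
  rcases hp.eq_or_lt with h | h
  · rw [← h]; ring
  · have hP' := hP h
    have hd' : (0 : ℝ) < d := by exact_mod_cast hd h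
    congr 1
    have e : p * (2 ^ C * 2 ^ d) / (P * d) = (p / P) * ((2 : ℝ) ^ C * (2 ^ d / d)) := by
      field_simp
    rw [e, log_mul (by positivity) (by positivity), log_div h.ne' hP'.ne',
      log_mul (by positivity) (by positivity), log_pow]
    ring

theorem analytic {δ p0 p1 Q : ℝ} {C d0 d1 : ℕ} (hδ0 : 0 < δ) (hδ1 : δ < 1)
    (hp0 : 0 ≤ p0) (hp1 : 0 ≤ p1) (hQ : 0 ≤ Q) (hC : 8 ≤ δ * ((C : ℝ) - 4))
    (hd0 : 0 < p0 → 1 ≤ d0) (hd1 : 0 < p1 → 1 ≤ d1) (hdQ : 0 < Q → 1 ≤ d0 + d1)
    (hN : d0 + d1 ≤ 2 * 2 ^ C) (hpq : p0 * p1 ≤ Q ^ 2) :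
    (1 - δ) * (p0 + p1) * ((C + 1 / 2) * log 2) ≤
      (1 - δ) * (p0 * log (p0 * (2 ^ C * 2 ^ d0) / (((1 - δ) * (p0 + p1) + δ * Q) * d0)))
      + (1 - δ) * (p1 * log (p1 * (2 ^ C * 2 ^ d1) / (((1 - δ) * (p0 + p1) + δ * Q) * d1)))
      + δ * (Q * log (Q * (2 * 2 ^ C) / (((1 - δ) * (p0 + p1) + δ * Q) * ((d0 + d1 : ℕ) : ℝ)))) := by
  have h1δ : 0 < 1 - δ := by linarith
  set P := (1 - δ) * (p0 + p1) + δ * Q with hP
  have hPp : 0 < p0 + p1 → 0 < P := by
    intro h; rw [hP]; have := mul_pos h1δ h; have := mul_nonneg hδ0.le hQ; linarith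
  have hPQ : 0 < Q → 0 < P := by
    intro h; rw [hP]; have := mul_pos hδ0 h
    have := mul_nonneg h1δ.le (add_nonneg hp0 hp1); linarith
  rw [term_eq hp0 (fun h => hPp (by linarith)) C d0 hd0,
    term_eq hp1 (fun h => hPp (by linarith)) C d1 hd1]
  -- the third term
  have hlog2 : 0 < log 2 := log_pos (by norm_num)
  obtain ⟨M, hM0, hM1, hM2⟩ : ∃ M : ℝ, 0 ≤ M ∧
      Q * log (Q * (2 * 2 ^ C) / (P * ((d0 + d1 : ℕ) : ℝ))) = Q * (log Q - log P + M) ∧
      (0 < Q → d0 ≤ 12 → d1 ≤ 12 → ((C : ℝ) - 4) * log 2 ≤ M) := by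
    rcases hQ.eq_or_lt with h | h
    · exact ⟨0, le_refl _, by rw [← h]; ring, fun hh => absurd hh (by rw [← h]; simp)⟩
    · have hd := hdQ h
      have hdpos : (0 : ℝ) < ((d0 + d1 : ℕ) : ℝ) := by exact_mod_cast hd
      have hP' := hPQ h
      refine ⟨log (2 * 2 ^ C / ((d0 + d1 : ℕ) : ℝ)), ?_, ?_, ?_⟩
      · apply log_nonneg
        rw [one_le_div hdpos]
        exact_mod_cast hN
      · congr 1
        have e : Q * (2 * 2 ^ C) / (P * ((d0 + d1 : ℕ) : ℝ))
            = (Q / P) * (2 * 2 ^ C / ((d0 + d1 : ℕ) : ℝ)) := by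
          field_simp
        rw [e, log_mul (by positivity) (by positivity), log_div h.ne' hP'.ne']
      · intro _ h12 h12'
        have h24 : ((d0 + d1 : ℕ) : ℝ) ≤ 2 ^ 5 := by
          have : d0 + d1 ≤ 2 ^ 5 := by norm_num; omega
          exact_mod_cast this
        have e1 : ((C : ℝ) - 4) * log 2 = log (2 * 2 ^ C / 2 ^ 5) := by
          rw [log_div (by positivity) (by positivity), log_mul (by norm_num) (by positivity),
            log_pow, log_pow]
          push_cast
          ring
        rw [e1]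
        apply log_le_log (by positivity)
        apply div_le_div_of_nonneg_left (by positivity) hdpos h24
  rw [hM1]
  -- concavity
  have hconc : (1 - δ) * negMulLog (p0 + p1) + δ * negMulLog Q ≤ negMulLog P := by
    have := concaveOn_negMulLog.2 (x := p0 + p1) (y := Q) (Set.mem_Ici.2 (add_nonneg hp0 hp1))
      (Set.mem_Ici.2 hQ) h1δ.le hδ0.le (by ring)
    simpa [smul_eq_mul, hP] using this
  simp only [negMulLog] at hconc
  have hPPl : P * log P = (1 - δ) * (p0 + p1) * log P + δ * Q * log P := by rw [hP]; ring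
  -- lower bounds for the logarithms of the ratios
  have hL0 : p0 * log 2 ≤ p0 * log ((2 : ℝ) ^ d0 / d0) := by
    rcases hp0.eq_or_lt with h | h
    · rw [← h]; simp
    · apply mul_le_mul_of_nonneg_left _ hp0
      have := log_ratio_ge (c := 1) (hd0 h) (by simpa using two_mul_le_two_pow (hd0 h))
      simpa using this
  have hL1 : p1 * log 2 ≤ p1 * log ((2 : ℝ) ^ d1 / d1) := by
    rcases hp1.eq_or_lt with h | h
    · rw [← h]; simp
    · apply mul_le_mul_of_nonneg_left _ hp1
      have := log_ratio_ge (c := 1) (hd1 h) (by simpa using two_mul_le_two_pow (hd1 h))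
      simpa using this
  set L0 := log ((2 : ℝ) ^ d0 / d0)
  set L1 := log ((2 : ℝ) ^ d1 / d1)
  -- it suffices to bound the following
  suffices hs : (1 - δ) * (p0 + p1) * ((C + 1 / 2) * log 2) ≤
      (1 - δ) * (p0 * log p0 + p1 * log p1 - (p0 + p1) * log (p0 + p1)
        + (p0 + p1) * (C * log 2) + p0 * L0 + p1 * L1) + δ * Q * M by
    nlinarith [hs, hconc, hPPl]
  rcases (add_nonneg hp0 hp1).eq_or_lt with hz | hpos
  · have e0 : p0 = 0 := by linarith
    have e1 : p1 = 0 := by linarith
    rw [e0, e1]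
    have := mul_nonneg (mul_nonneg hδ0.le hQ) hM0
    simp
    linarith
  · set S := p0 + p1 with hS
    set q := p0 / S with hq
    have hq0 : 0 ≤ q := div_nonneg hp0 hpos.le
    have hq1 : q ≤ 1 := by rw [hq, div_le_one hpos]; linarith
    have ep0 : p0 = q * S := by rw [hq]; field_simp
    have ep1 : p1 = (1 - q) * S := by linarith [ep0, hS]
    have hent : p0 * log p0 + p1 * log p1 - S * log S = - (S * binEntropy q) := by
      unfold binEntropy
      rw [log_inv, log_inv]
      have a0 : p0 * log p0 = p0 * (log q + log S) := by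
        rcases hp0.eq_or_lt with h | h
        · rw [← h]; ring
        · have hqp : 0 < q := div_pos h hpos
          nth_rewrite 2 [ep0]
          rw [log_mul hqp.ne' hpos.ne']
      have a1 : p1 * log p1 = p1 * (log (1 - q) + log S) := by
        rcases hp1.eq_or_lt with h | h
        · rw [← h]; ring
        · have hqp : 0 < 1 - q := by
            by_contra hcon
            have : p1 ≤ 0 := by
              rw [ep1]; exact mul_nonpos_of_nonpos_of_nonneg (not_lt.1 hcon) hpos.le
            linarith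
          nth_rewrite 2 [ep1]
          rw [log_mul hqp.ne' hpos.ne']
      rw [a0, a1]
      linear_combination (log q + log S) * ep0 + (log (1 - q) + log S) * ep1
    have hQM : 0 ≤ δ * Q * M := mul_nonneg (mul_nonneg hδ0.le hQ) hM0
    -- the general form
    have hmain : ∀ e : ℝ, binEntropy q ≤ e * log 2 →
        ∀ g : ℝ, g * (S * log 2) ≤ p0 * L0 + p1 * L1 →
        (1 - δ) * (S * ((C - e + g) * log 2)) ≤
        (1 - δ) * (p0 * log p0 + p1 * log p1 - S * log S
          + S * (C * log 2) + p0 * L0 + p1 * L1) := by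
      intro e he g hg
      apply mul_le_mul_of_nonneg_left _ h1δ.le
      have := mul_le_mul_of_nonneg_left he hpos.le
      linarith
    have hg1 : (1 : ℝ) * (S * log 2) ≤ p0 * L0 + p1 * L1 := by
      have : S * log 2 = p0 * log 2 + p1 * log 2 := by rw [hS]; ring
      linarith
    by_cases hA : q ≤ 1 / 16 ∨ 15 / 16 ≤ q
    · have hb : binEntropy q ≤ 1 / 2 * log 2 := by
        rcases hA with h | h
        · exact binEntropy_small hq0 h
        · exact binEntropy_big h hq1
      have := hmain (1 / 2) hb 1 hg1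
      have e : (1 - δ) * (S * ((C - 1 / 2 + 1) * log 2)) = (1 - δ) * S * ((C + 1 / 2) * log 2) := by
        ring
      linarith
    · push Not at hA
      have hb : binEntropy q ≤ 1 * log 2 := by
        rw [one_mul]; exact binEntropy_le_log_two
      have hp0S : S / 16 ≤ p0 := by rw [ep0]; nlinarith [hA.1]
      have hp1S : S / 16 ≤ p1 := by rw [ep1]; nlinarith [hA.2]
      have hp0pos : 0 < p0 := by linarith
      have hp1pos : 0 < p1 := by linarith
      by_cases hB : 13 ≤ d0 ∨ 13 ≤ d1
      · have hg : (3 / 2 : ℝ) * (S * log 2) ≤ p0 * L0 + p1 * L1 := by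
          rcases hB with h | h
          · have h9 : (9 : ℕ) * log 2 ≤ L0 := log_ratio_ge (by omega) (by
              have := big_pow h; norm_num; exact this)
            push_cast at h9
            have h91 := mul_le_mul_of_nonneg_left h9 hp0
            nlinarith [h91, hL1, mul_le_mul_of_nonneg_right hp0S hlog2.le]
          · have h9 : (9 : ℕ) * log 2 ≤ L1 := log_ratio_ge (by omega) (by
              have := big_pow h; norm_num; exact this)
            push_cast at h9
            have h91 := mul_le_mul_of_nonneg_left h9 hp1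
            nlinarith [h91, hL0, mul_le_mul_of_nonneg_right hp1S hlog2.le]
        have := hmain 1 hb (3 / 2) hg
        have e : (1 - δ) * (S * ((C - 1 + 3 / 2) * log 2))
            = (1 - δ) * S * ((C + 1 / 2) * log 2) := by ring
        linarith
      · push Not at hB
        have hQS : S / 16 ≤ Q := by
          by_contra hcon
          push Not at hcon
          have : Q ^ 2 < (S / 16) * (S / 16) := by nlinarith
          have : (S / 16) * (S / 16) ≤ p0 * p1 :=
            mul_le_mul hp0S hp1S (by positivity) hp0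
          linarith
        have hQpos : 0 < Q := by linarith [div_pos hpos (by norm_num : (0 : ℝ) < 16)]
        have hMM := hM2 hQpos (by omega) (by omega)
        have h1 := hmain 1 hb 1 hg1
        have h2 : S / 16 * (8 * log 2) ≤ δ * Q * M := by
          have a1 : δ * Q * (((C : ℝ) - 4) * log 2) ≤ δ * Q * M :=
            mul_le_mul_of_nonneg_left hMM (mul_nonneg hδ0.le hQ)
          have a2 : S / 16 * (8 * log 2) ≤ Q * (8 * log 2) :=
            mul_le_mul_of_nonneg_right hQS (by positivity)
          have a3 : Q * (8 * log 2) ≤ Q * ((δ * ((C : ℝ) - 4)) * log 2) := by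
            apply mul_le_mul_of_nonneg_left _ hQ
            exact mul_le_mul_of_nonneg_right hC hlog2.le
          nlinarith [a1, a2, a3]
        have h3 : (1 - δ) * S * (1 / 2 * log 2) ≤ S / 16 * (8 * log 2) := by
          have : (1 - δ) * S ≤ S := by nlinarith
          nlinarith [mul_le_mul_of_nonneg_right this (by positivity : (0 : ℝ) ≤ 1 / 2 * log 2)]
        nlinarith [h1, h2, h3]

end Pool.Agent.W975.EA
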