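import Pool.Agent.W975.EA.Defs

/-!
# Basic facts about protocol trees
-/

open scoped BigOperators

namespace Pool.Agent.W975.EA

variable {X Y Z : Type}

theorem sum_leaf_alice (f : X → Set.Icc (0 : ℝ) 1) (l r : Prot X Y Z)
    (φ : Leaf (Prot.alice f l r) → ℝ) :
    ∑ t, φ t = (∑ t : Leaf l, φ (Sum.inl t)) + ∑ t : Leaf r, φ (Sum.inr t) :=
  Fintype.sum_sum_type φ

theorem sum_leaf_bob (f : Y → Set.Icc (0 : ℝ) 1) (l r : Prot X Y Z)
    (φ : Leaf (Prot.bob f l r) → ℝ) :
    ∑ t, φ t = (∑ t : Leaf l, φ (Sum.inl t)) + ∑ t : Leaf r, φ (Sum.inr t) :=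
  Fintype.sum_sum_type φ

theorem sum_leaf_coin (c : Set.Icc (0 : ℝ) 1) (l r : Prot X Y Z)
    (φ : Leaf (Prot.coin c l r) → ℝ) :
    ∑ t, φ t = (∑ t : Leaf l, φ (Sum.inl t)) + ∑ t : Leaf r, φ (Sum.inr t) :=
  Fintype.sum_sum_type φ

theorem sum_leaf_out (z : Z) (φ : Leaf (Prot.out z : Prot X Y Z) → ℝ) :
    ∑ t, φ t = φ () := by
  show ∑ t : Unit, φ t = φ ()
  simp

theorem prob_nonneg (P : Prot X Y Z) (x : X) (y : Y) (t : Leaf P) : 0 ≤ prob P x y t := by
  induction P with
  | out z => simp [prob]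
  | alice f l r ihl ihr =>
    rcases t with t | t
    · exact mul_nonneg (by linarith [(f x).2.2]) (ihl t)
    · exact mul_nonneg (f x).2.1 (ihr t)
  | bob f l r ihl ihr =>
    rcases t with t | t
    · exact mul_nonneg (by linarith [(f y).2.2]) (ihl t)
    · exact mul_nonneg (f y).2.1 (ihr t)
  | coin c l r ihl ihr =>
    rcases t with t | t
    · exact mul_nonneg (by linarith [c.2.2]) (ihl t)
    · exact mul_nonneg c.2.1 (ihr t)

theorem sum_prob (P : Prot X Y Z) (x : X) (y : Y) : ∑ t : Leaf P, prob P x y t = 1 := by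
  induction P with
  | out z => rw [sum_leaf_out]; rfl
  | alice f l r ihl ihr =>
    rw [sum_leaf_alice]
    simp only [prob]
    rw [← Finset.mul_sum, ← Finset.mul_sum, ihl, ihr]
    ring
  | bob f l r ihl ihr =>
    rw [sum_leaf_bob]
    simp only [prob]
    rw [← Finset.mul_sum, ← Finset.mul_sum, ihl, ihr]
    ring
  | coin c l r ihl ihr =>
    rw [sum_leaf_coin]
    simp only [prob]
    rw [← Finset.mul_sum, ← Finset.mul_sum, ihl, ihr]
    ring

/-- Alice's factor of the probability of a transcript. -/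
noncomputable def al : (P : Prot X Y Z) → X → Leaf P → ℝ
  | .out _, _, _ => 1
  | .alice f l _, x, Sum.inl t => (1 - (f x : ℝ)) * al l x t
  | .alice f _ r, x, Sum.inr t => (f x : ℝ) * al r x t
  | .bob _ l _, x, Sum.inl t => al l x t
  | .bob _ _ r, x, Sum.inr t => al r x t
  | .coin c l _, x, Sum.inl t => (1 - (c : ℝ)) * al l x t
  | .coin c _ r, x, Sum.inr t => (c : ℝ) * al r x t

/-- Bob's factor of the probability of a transcript. -/
noncomputable def be : (P : Prot X Y Z) → Y → Leaf P → ℝ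
  | .out _, _, _ => 1
  | .alice _ l _, y, Sum.inl t => be l y t
  | .alice _ _ r, y, Sum.inr t => be r y t
  | .bob g l _, y, Sum.inl t => (1 - (g y : ℝ)) * be l y t
  | .bob g _ r, y, Sum.inr t => (g y : ℝ) * be r y t
  | .coin _ l _, y, Sum.inl t => be l y t
  | .coin _ _ r, y, Sum.inr t => be r y t

theorem prob_eq (P : Prot X Y Z) (x : X) (y : Y) (t : Leaf P) :
    prob P x y t = al P x t * be P y t := by
  induction P with
  | out z => simp [prob, al, be]
  | alice f l r ihl ihr =>
    rcases t with t | t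
    · simp only [prob, al, be, ihl]; ring
    · simp only [prob, al, be, ihr]; ring
  | bob f l r ihl ihr =>
    rcases t with t | t
    · simp only [prob, al, be, ihl]; ring
    · simp only [prob, al, be, ihr]; ring
  | coin c l r ihl ihr =>
    rcases t with t | t
    · simp only [prob, al, be, ihl]; ring
    · simp only [prob, al, be, ihr]; ring

theorem al_nonneg (P : Prot X Y Z) (x : X) (t : Leaf P) : 0 ≤ al P x t := by
  induction P with
  | out z => simp [al]
  | alice f l r ihl ihr =>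
    rcases t with t | t
    · exact mul_nonneg (by linarith [(f x).2.2]) (ihl t)
    · exact mul_nonneg (f x).2.1 (ihr t)
  | bob f l r ihl ihr =>
    rcases t with t | t
    · exact ihl t
    · exact ihr t
  | coin c l r ihl ihr =>
    rcases t with t | t
    · exact mul_nonneg (by linarith [c.2.2]) (ihl t)
    · exact mul_nonneg c.2.1 (ihr t)

theorem be_nonneg (P : Prot X Y Z) (y : Y) (t : Leaf P) : 0 ≤ be P y t := by
  induction P with
  | out z => simp [be]
  | alice f l r ihl ihr =>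
    rcases t with t | t
    · exact ihl t
    · exact ihr t
  | bob f l r ihl ihr =>
    rcases t with t | t
    · exact mul_nonneg (by linarith [(f y).2.2]) (ihl t)
    · exact mul_nonneg (f y).2.1 (ihr t)
  | coin c l r ihl ihr =>
    rcases t with t | t
    · exact ihl t
    · exact ihr t

/-- The expected number of bits on a fixed pair of inputs. -/
noncomputable def ecost (P : Prot X Y Z) (x : X) (y : Y) : ℝ :=
  ∑ t : Leaf P, prob P x y t * (bits P t : ℝ)

theorem ecost_out (z : Z) (x : X) (y : Y) : ecost (Prot.out z : Prot X Y Z) x y = 0 := by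
  unfold ecost
  rw [sum_leaf_out]
  simp [bits]

theorem ecost_alice (f : X → Set.Icc (0 : ℝ) 1) (l r : Prot X Y Z) (x : X) (y : Y) :
    ecost (Prot.alice f l r) x y
      = (1 - (f x : ℝ)) * ecost l x y + (f x : ℝ) * ecost r x y + 1 := by
  unfold ecost
  rw [sum_leaf_alice]
  simp only [prob, bits]
  have h1 : ∀ t : Leaf l, (1 - (f x : ℝ)) * prob l x y t * ((bits l t + 1 : ℕ) : ℝ)
      = (1 - (f x : ℝ)) * (prob l x y t * (bits l t : ℝ)) + (1 - (f x : ℝ)) * prob l x y t := by
    intro t; push_cast; ring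
  have h2 : ∀ t : Leaf r, (f x : ℝ) * prob r x y t * ((bits r t + 1 : ℕ) : ℝ)
      = (f x : ℝ) * (prob r x y t * (bits r t : ℝ)) + (f x : ℝ) * prob r x y t := by
    intro t; push_cast; ring
  rw [Finset.sum_congr rfl fun t _ => h1 t, Finset.sum_congr rfl fun t _ => h2 t,
    Finset.sum_add_distrib, Finset.sum_add_distrib, ← Finset.mul_sum, ← Finset.mul_sum,
    ← Finset.mul_sum, ← Finset.mul_sum, sum_prob, sum_prob]
  ring

theorem ecost_bob (f : Y → Set.Icc (0 : ℝ) 1) (l r : Prot X Y Z) (x : X) (y : Y) :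
    ecost (Prot.bob f l r) x y
      = (1 - (f y : ℝ)) * ecost l x y + (f y : ℝ) * ecost r x y + 1 := by
  unfold ecost
  rw [sum_leaf_bob]
  simp only [prob, bits]
  have h1 : ∀ t : Leaf l, (1 - (f y : ℝ)) * prob l x y t * ((bits l t + 1 : ℕ) : ℝ)
      = (1 - (f y : ℝ)) * (prob l x y t * (bits l t : ℝ)) + (1 - (f y : ℝ)) * prob l x y t := by
    intro t; push_cast; ring
  have h2 : ∀ t : Leaf r, (f y : ℝ) * prob r x y t * ((bits r t + 1 : ℕ) : ℝ)
      = (f y : ℝ) * (prob r x y t * (bits r t : ℝ)) + (f y : ℝ) * prob r x y t := by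
    intro t; push_cast; ring
  rw [Finset.sum_congr rfl fun t _ => h1 t, Finset.sum_congr rfl fun t _ => h2 t,
    Finset.sum_add_distrib, Finset.sum_add_distrib, ← Finset.mul_sum, ← Finset.mul_sum,
    ← Finset.mul_sum, ← Finset.mul_sum, sum_prob, sum_prob]
  ring

theorem ecost_coin (c : Set.Icc (0 : ℝ) 1) (l r : Prot X Y Z) (x : X) (y : Y) :
    ecost (Prot.coin c l r) x y = (1 - (c : ℝ)) * ecost l x y + (c : ℝ) * ecost r x y := by
  unfold ecost
  rw [sum_leaf_coin]
  simp only [prob, bits]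
  have h1 : ∀ t : Leaf l, (1 - (c : ℝ)) * prob l x y t * ((bits l t : ℕ) : ℝ)
      = (1 - (c : ℝ)) * (prob l x y t * (bits l t : ℝ)) := by
    intro t; ring
  have h2 : ∀ t : Leaf r, (c : ℝ) * prob r x y t * ((bits r t : ℕ) : ℝ)
      = (c : ℝ) * (prob r x y t * (bits r t : ℝ)) := by
    intro t; ring
  rw [Finset.sum_congr rfl fun t _ => h1 t, Finset.sum_congr rfl fun t _ => h2 t,
    ← Finset.mul_sum, ← Finset.mul_sum]

theorem ecost_nonneg (P : Prot X Y Z) (x : X) (y : Y) : 0 ≤ ecost P x y :=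
  Finset.sum_nonneg fun t _ => mul_nonneg (prob_nonneg P x y t) (Nat.cast_nonneg _)

end Pool.Agent.W975.EA
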