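import Pool.Agent.W975.EA.Basic

/-!
# Building protocols
-/

open scoped BigOperators
open Finset

namespace Pool.Agent.W975.EA

variable {X Y Z : Type}

/-- `Res P x y z c`: on the inputs `x`, `y` the protocol `P` certainly has the output `z`, and it
uses `c` bits on average. -/
def Res (P : Prot X Y Z) (x : X) (y : Y) (z : Z) (c : ℝ) : Prop :=
  (∀ t, 0 < prob P x y t → label P t = z) ∧ ecost P x y = c

theorem Res.out (z : Z) (x : X) (y : Y) : Res (Prot.out z : Prot X Y Z) x y z 0 :=
  ⟨fun _ _ => rfl, ecost_out z x y⟩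

theorem zeroError_of_res {P : Prot X Y Z} {f : X → Y → Z}
    (h : ∀ x y, ∃ c, Res P x y (f x y) c) : ZeroError P f := by
  intro x y t ht
  obtain ⟨c, hc⟩ := h x y
  exact hc.1 t ht

theorem res_of_zeroError {P : Prot X Y Z} {f : X → Y → Z} (h : ZeroError P f) (x : X) (y : Y) :
    Res P x y (f x y) (ecost P x y) :=
  ⟨fun t ht => h x y t ht, rfl⟩

/-- A sure bit. -/
noncomputable def b01 (b : Bool) : Set.Icc (0 : ℝ) 1 :=
  if b then ⟨1, by norm_num, le_refl _⟩ else ⟨0, le_refl _, by norm_num⟩

theorem b01_true : ((b01 true : Set.Icc (0 : ℝ) 1) : ℝ) = 1 := by simp [b01]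

theorem b01_false : ((b01 false : Set.Icc (0 : ℝ) 1) : ℝ) = 0 := by simp [b01]

theorem Res.alice {f : X → Bool} {l r : Prot X Y Z} {x : X} {y : Y} {z : Z} {c : ℝ}
    (h : Res (if f x then r else l) x y z c) :
    Res (Prot.alice (fun x => b01 (f x)) l r) x y z (c + 1) := by
  rcases hf : f x with _ | _
  · rw [hf] at h
    simp only [Bool.false_eq_true, if_false] at h
    constructor
    · intro t ht
      rcases t with t | t
      · simp only [prob, hf, b01_false] at ht
        exact h.1 t (by linarith)
      · simp only [prob, hf, b01_false] at ht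
        linarith
    · rw [ecost_alice, hf, b01_false, h.2]; ring
  · rw [hf] at h
    simp only [if_true] at h
    constructor
    · intro t ht
      rcases t with t | t
      · simp only [prob, hf, b01_true] at ht
        linarith
      · simp only [prob, hf, b01_true] at ht
        exact h.1 t (by linarith)
    · rw [ecost_alice, hf, b01_true, h.2]; ring

theorem Res.bob {f : Y → Bool} {l r : Prot X Y Z} {x : X} {y : Y} {z : Z} {c : ℝ}
    (h : Res (if f y then r else l) x y z c) :
    Res (Prot.bob (fun y => b01 (f y)) l r) x y z (c + 1) := by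
  rcases hf : f y with _ | _
  · rw [hf] at h
    simp only [Bool.false_eq_true, if_false] at h
    constructor
    · intro t ht
      rcases t with t | t
      · simp only [prob, hf, b01_false] at ht
        exact h.1 t (by linarith)
      · simp only [prob, hf, b01_false] at ht
        linarith
    · rw [ecost_bob, hf, b01_false, h.2]; ring
  · rw [hf] at h
    simp only [if_true] at h
    constructor
    · intro t ht
      rcases t with t | t
      · simp only [prob, hf, b01_true] at ht
        linarith
      · simp only [prob, hf, b01_true] at ht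
        exact h.1 t (by linarith)
    · rw [ecost_bob, hf, b01_true, h.2]; ring

/-- Alice sends `k` bits. -/
noncomputable def sendA : (k : ℕ) → (X → Fin k → Bool) → ((Fin k → Bool) → Prot X Y Z) →
    Prot X Y Z
  | 0, _, cont => cont (fun i => i.elim0)
  | k + 1, f, cont =>
      .alice (fun x => b01 (f x 0))
        (sendA k (fun x => Fin.tail (f x)) (fun v => cont (Fin.cons false v)))
        (sendA k (fun x => Fin.tail (f x)) (fun v => cont (Fin.cons true v)))

/-- Bob sends `k` bits. -/
noncomputable def sendB : (k : ℕ) → (Y → Fin k → Bool) → ((Fin k → Bool) → Prot X Y Z) →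
    Prot X Y Z
  | 0, _, cont => cont (fun i => i.elim0)
  | k + 1, f, cont =>
      .bob (fun y => b01 (f y 0))
        (sendB k (fun y => Fin.tail (f y)) (fun v => cont (Fin.cons false v)))
        (sendB k (fun y => Fin.tail (f y)) (fun v => cont (Fin.cons true v)))

theorem Res.sendA {x : X} {y : Y} {z : Z} {c : ℝ} :
    ∀ (k : ℕ) (f : X → Fin k → Bool) (cont : (Fin k → Bool) → Prot X Y Z),
      Res (cont (f x)) x y z c → Res (sendA k f cont) x y z (c + k) := by
  intro k
  induction k with
  | zero =>
    intro f cont h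
    have e : (fun i : Fin 0 => i.elim0) = f x := by funext i; exact i.elim0
    have e2 : (EA.sendA 0 f cont : Prot X Y Z) = cont (f x) := by
      show cont _ = _
      rw [← e]
    rw [e2]
    simpa using h
  | succ k ih =>
    intro f cont h
    have h1 : Res (EA.sendA k (fun x => Fin.tail (f x)) (fun v => cont (Fin.cons (f x 0) v)))
        x y z (c + k) := by
      apply ih
      show Res (cont (Fin.cons (f x 0) (Fin.tail (f x)))) x y z c
      rw [Fin.cons_self_tail]
      exact h
    have h2 : Res (EA.sendA (k + 1) f cont) x y z (c + k + 1) := by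
      apply Res.alice (f := fun x => f x 0)
      rcases hf : f x 0 with _ | _
      · rw [hf] at h1; simpa using h1
      · rw [hf] at h1; simpa using h1
    have e : c + ((k + 1 : ℕ) : ℝ) = c + k + 1 := by push_cast; ring
    rw [e]
    exact h2

theorem Res.sendB {x : X} {y : Y} {z : Z} {c : ℝ} :
    ∀ (k : ℕ) (f : Y → Fin k → Bool) (cont : (Fin k → Bool) → Prot X Y Z),
      Res (cont (f y)) x y z c → Res (sendB k f cont) x y z (c + k) := by
  intro k
  induction k with
  | zero =>
    intro f cont h
    have e : (fun i : Fin 0 => i.elim0) = f y := by funext i; exact i.elim0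
    have e2 : (EA.sendB 0 f cont : Prot X Y Z) = cont (f y) := by
      show cont _ = _
      rw [← e]
    rw [e2]
    simpa using h
  | succ k ih =>
    intro f cont h
    have h1 : Res (EA.sendB k (fun y => Fin.tail (f y)) (fun v => cont (Fin.cons (f y 0) v)))
        x y z (c + k) := by
      apply ih
      show Res (cont (Fin.cons (f y 0) (Fin.tail (f y)))) x y z c
      rw [Fin.cons_self_tail]
      exact h
    have h2 : Res (EA.sendB (k + 1) f cont) x y z (c + k + 1) := by
      apply Res.bob (f := fun y => f y 0)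
      rcases hf : f y 0 with _ | _
      · rw [hf] at h1; simpa using h1
      · rw [hf] at h1; simpa using h1
    have e : c + ((k + 1 : ℕ) : ℝ) = c + k + 1 := by push_cast; ring
    rw [e]
    exact h2

/-- A code of `M` by `k` bits. -/
theorem exists_code (M : Type) [Fintype M] [Nonempty M] (k : ℕ) (h : Fintype.card M ≤ 2 ^ k) :
    ∃ (e : M → Fin k → Bool) (d : (Fin k → Bool) → M), ∀ m, d (e m) = m := by
  classical
  have hc : Fintype.card M ≤ Fintype.card (Fin k → Bool) := by
    rw [Fintype.card_fun, Fintype.card_bool, Fintype.card_fin]; exact h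
  obtain ⟨e⟩ := Function.Embedding.nonempty_of_card_le hc
  exact ⟨e, Function.invFun e, fun m => Function.leftInverse_invFun e.injective m⟩

/-- Alice announces the value `g x` using `k` bits. -/
noncomputable def sayA {M : Type} [Fintype M] [Nonempty M] (k : ℕ)
    (h : Fintype.card M ≤ 2 ^ k) (g : X → M) (cont : M → Prot X Y Z) : Prot X Y Z :=
  sendA k (fun x => (exists_code M k h).choose (g x))
    (fun v => cont ((exists_code M k h).choose_spec.choose v))

/-- Bob announces the value `g y` using `k` bits. -/
noncomputable def sayB {M : Type} [Fintype M] [Nonempty M] (k : ℕ)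
    (h : Fintype.card M ≤ 2 ^ k) (g : Y → M) (cont : M → Prot X Y Z) : Prot X Y Z :=
  sendB k (fun y => (exists_code M k h).choose (g y))
    (fun v => cont ((exists_code M k h).choose_spec.choose v))

theorem Res.sayA {M : Type} [Fintype M] [Nonempty M] {k : ℕ} {h : Fintype.card M ≤ 2 ^ k}
    {g : X → M} {cont : M → Prot X Y Z} {x : X} {y : Y} {z : Z} {c : ℝ}
    (hc : Res (cont (g x)) x y z c) : Res (sayA k h g cont) x y z (c + k) := by
  apply Res.sendA
  have := (exists_code M k h).choose_spec.choose_spec (g x)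
  show Res (cont _) x y z c
  rw [this]
  exact hc

theorem Res.sayB {M : Type} [Fintype M] [Nonempty M] {k : ℕ} {h : Fintype.card M ≤ 2 ^ k}
    {g : Y → M} {cont : M → Prot X Y Z} {x : X} {y : Y} {z : Z} {c : ℝ}
    (hc : Res (cont (g y)) x y z c) : Res (sayB k h g cont) x y z (c + k) := by
  apply Res.sendB
  have := (exists_code M k h).choose_spec.choose_spec (g y)
  show Res (cont _) x y z c
  rw [this]
  exact hc

/-- Changing the inputs. -/
def comap {X' Y' : Type} (f : X' → X) (g : Y' → Y) : Prot X Y Z → Prot X' Y' Z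
  | .out z => .out z
  | .alice p l r => .alice (fun x => p (f x)) (comap f g l) (comap f g r)
  | .bob p l r => .bob (fun y => p (g y)) (comap f g l) (comap f g r)
  | .coin c l r => .coin c (comap f g l) (comap f g r)

/-- Continuing with another protocol that depends on the output. -/
def bind {Z' : Type} : Prot X Y Z → (Z → Prot X Y Z') → Prot X Y Z'
  | .out z, k => k z
  | .alice p l r, k => .alice p (bind l k) (bind r k)
  | .bob p l r, k => .bob p (bind l k) (bind r k)
  | .coin c l r, k => .coin c (bind l k) (bind r k)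

/-- The protocol `P` has certainly the output `z` on `x`, `y` (recursive form). -/
def Sure (x : X) (y : Y) (z : Z) : Prot X Y Z → Prop
  | .out z' => z' = z
  | .alice p l r => ((p x : ℝ) < 1 → Sure x y z l) ∧ (0 < (p x : ℝ) → Sure x y z r)
  | .bob p l r => ((p y : ℝ) < 1 → Sure x y z l) ∧ (0 < (p y : ℝ) → Sure x y z r)
  | .coin c l r => ((c : ℝ) < 1 → Sure x y z l) ∧ (0 < (c : ℝ) → Sure x y z r)

theorem sure_node {L R : Type} {φ : L → ℝ} {ψ : R → ℝ} {p : ℝ}
    (hp0 : 0 ≤ p) (hp1 : p ≤ 1) (hφ : ∀ t, 0 ≤ φ t) (hψ : ∀ t, 0 ≤ ψ t) {A : L → Prop}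
    {B : R → Prop} :
    ((∀ t, 0 < (1 - p) * φ t → A t) ∧ (∀ t, 0 < p * ψ t → B t)) ↔
      ((p < 1 → ∀ t, 0 < φ t → A t) ∧ (0 < p → ∀ t, 0 < ψ t → B t)) := by
  constructor
  · rintro ⟨h1, h2⟩
    exact ⟨fun hp t ht => h1 t (mul_pos (by linarith) ht), fun hp t ht => h2 t (mul_pos hp ht)⟩
  · rintro ⟨h1, h2⟩
    refine ⟨fun t ht => ?_, fun t ht => ?_⟩
    · have h3 : p < 1 := by
        by_contra hcon
        have : p = 1 := le_antisymm hp1 (not_lt.1 hcon)
        rw [this] at ht; simp at ht
      have h4 : 0 < φ t := by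
        rcases (hφ t).eq_or_lt with h | h
        · rw [← h] at ht; simp at ht
        · exact h
      exact h1 h3 t h4
    · have h3 : 0 < p := by
        rcases hp0.eq_or_lt with h | h
        · rw [← h] at ht; simp at ht
        · exact h
      have h4 : 0 < ψ t := by
        rcases (hψ t).eq_or_lt with h | h
        · rw [← h] at ht; simp at ht
        · exact h
      exact h2 h3 t h4

theorem sure_iff (x : X) (y : Y) (z : Z) (P : Prot X Y Z) :
    Sure x y z P ↔ ∀ t, 0 < prob P x y t → label P t = z := by
  induction P with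
  | out z' =>
    constructor
    · intro h t _; exact h
    · intro h; exact h () (by simp [prob])
  | alice p l r ihl ihr =>
    have e : (∀ t, 0 < prob (Prot.alice p l r) x y t → label (Prot.alice p l r) t = z) ↔
        ((∀ t, 0 < (1 - (p x : ℝ)) * prob l x y t → label l t = z) ∧
          (∀ t, 0 < (p x : ℝ) * prob r x y t → label r t = z)) := by
      constructor
      · intro h; exact ⟨fun t ht => h (Sum.inl t) ht, fun t ht => h (Sum.inr t) ht⟩
      · rintro ⟨h1, h2⟩ (t | t) ht
        · exact h1 t ht
        · exact h2 t ht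
    rw [e, sure_node (p x).2.1 (p x).2.2 (prob_nonneg l x y) (prob_nonneg r x y), ← ihl, ← ihr]
    rfl
  | bob p l r ihl ihr =>
    have e : (∀ t, 0 < prob (Prot.bob p l r) x y t → label (Prot.bob p l r) t = z) ↔
        ((∀ t, 0 < (1 - (p y : ℝ)) * prob l x y t → label l t = z) ∧
          (∀ t, 0 < (p y : ℝ) * prob r x y t → label r t = z)) := by
      constructor
      · intro h; exact ⟨fun t ht => h (Sum.inl t) ht, fun t ht => h (Sum.inr t) ht⟩
      · rintro ⟨h1, h2⟩ (t | t) ht
        · exact h1 t ht
        · exact h2 t ht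
    rw [e, sure_node (p y).2.1 (p y).2.2 (prob_nonneg l x y) (prob_nonneg r x y), ← ihl, ← ihr]
    rfl
  | coin c l r ihl ihr =>
    have e : (∀ t, 0 < prob (Prot.coin c l r) x y t → label (Prot.coin c l r) t = z) ↔
        ((∀ t, 0 < (1 - (c : ℝ)) * prob l x y t → label l t = z) ∧
          (∀ t, 0 < (c : ℝ) * prob r x y t → label r t = z)) := by
      constructor
      · intro h; exact ⟨fun t ht => h (Sum.inl t) ht, fun t ht => h (Sum.inr t) ht⟩
      · rintro ⟨h1, h2⟩ (t | t) ht
        · exact h1 t ht
        · exact h2 t ht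
    rw [e, sure_node c.2.1 c.2.2 (prob_nonneg l x y) (prob_nonneg r x y), ← ihl, ← ihr]
    rfl

theorem sure_comap {X' Y' : Type} (f : X' → X) (g : Y' → Y) (x : X') (y : Y') (z : Z)
    (P : Prot X Y Z) : Sure x y z (comap f g P) ↔ Sure (f x) (g y) z P := by
  induction P with
  | out z' => exact Iff.rfl
  | alice p l r ihl ihr => simp only [comap, Sure, ihl, ihr]
  | bob p l r ihl ihr => simp only [comap, Sure, ihl, ihr]
  | coin c l r ihl ihr => simp only [comap, Sure, ihl, ihr]

theorem ecost_comap {X' Y' : Type} (f : X' → X) (g : Y' → Y) (x : X') (y : Y')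
    (P : Prot X Y Z) : ecost (comap f g P) x y = ecost P (f x) (g y) := by
  induction P with
  | out z' => simp only [comap, ecost_out]
  | alice p l r ihl ihr => simp only [comap, ecost_alice, ihl, ihr]
  | bob p l r ihl ihr => simp only [comap, ecost_bob, ihl, ihr]
  | coin c l r ihl ihr => simp only [comap, ecost_coin, ihl, ihr]

theorem Res.comap {X' Y' : Type} {f : X' → X} {g : Y' → Y} {x : X'} {y : Y'} {z : Z} {c : ℝ}
    {P : Prot X Y Z} (h : Res P (f x) (g y) z c) : Res (comap f g P) x y z c := by
  refine ⟨?_, ?_⟩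
  · rw [← sure_iff, sure_comap, sure_iff]; exact h.1
  · rw [ecost_comap]; exact h.2

theorem sure_bind {Z' : Type} (x : X) (y : Y) (z : Z) (z' : Z') (k : Z → Prot X Y Z')
    (hk : Sure x y z' (k z)) (P : Prot X Y Z) (hP : Sure x y z P) :
    Sure x y z' (bind P k) := by
  induction P with
  | out z'' =>
    have : z'' = z := hP
    rw [this]; exact hk
  | alice p l r ihl ihr => exact ⟨fun h => ihl (hP.1 h), fun h => ihr (hP.2 h)⟩
  | bob p l r ihl ihr => exact ⟨fun h => ihl (hP.1 h), fun h => ihr (hP.2 h)⟩
  | coin c l r ihl ihr => exact ⟨fun h => ihl (hP.1 h), fun h => ihr (hP.2 h)⟩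

theorem ecost_bind_aux {p a a' b b' c : ℝ} (hp0 : 0 ≤ p) (hp1 : p ≤ 1)
    (ha : p < 1 → a' = a + c) (hb : 0 < p → b' = b + c) :
    (1 - p) * a' + p * b' = (1 - p) * a + p * b + c := by
  rcases hp0.eq_or_lt with h | h
  · rw [← h, ha (by linarith)]; ring
  · rw [hb h]
    rcases hp1.eq_or_lt with h' | h'
    · rw [h']; ring
    · rw [ha h']; ring

theorem ecost_bind {Z' : Type} (x : X) (y : Y) (z : Z) (k : Z → Prot X Y Z')
    (P : Prot X Y Z) (hP : Sure x y z P) :
    ecost (bind P k) x y = ecost P x y + ecost (k z) x y := by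
  induction P with
  | out z'' =>
    have : z'' = z := hP
    simp only [bind, ecost_out, this, zero_add]
  | alice p l r ihl ihr =>
    simp only [bind, ecost_alice]
    rw [ecost_bind_aux (p x).2.1 (p x).2.2 (fun h => ihl (hP.1 h)) (fun h => ihr (hP.2 h))]
    ring
  | bob p l r ihl ihr =>
    simp only [bind, ecost_bob]
    rw [ecost_bind_aux (p y).2.1 (p y).2.2 (fun h => ihl (hP.1 h)) (fun h => ihr (hP.2 h))]
    ring
  | coin c l r ihl ihr =>
    simp only [bind, ecost_coin]
    rw [ecost_bind_aux c.2.1 c.2.2 (fun h => ihl (hP.1 h)) (fun h => ihr (hP.2 h))]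

theorem Res.bind {Z' : Type} {x : X} {y : Y} {z : Z} {z' : Z'} {c c' : ℝ}
    {k : Z → Prot X Y Z'} {P : Prot X Y Z} (h : Res P x y z c) (hk : Res (k z) x y z' c') :
    Res (bind P k) x y z' (c + c') := by
  have hs : Sure x y z P := (sure_iff x y z P).2 h.1
  refine ⟨?_, ?_⟩
  · rw [← sure_iff]
    exact sure_bind x y z z' k ((sure_iff _ _ _ _).2 hk.1) P hs
  · rw [ecost_bind x y z k P hs, h.2, hk.2]

/-- Every function has a zero-error protocol. -/
theorem exists_zeroError [Fintype X] [Nonempty X] [Fintype Z] [Nonempty Z] (f : X → Y → Z) :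
    ∃ P : Prot X Y Z, ZeroError P f := by
  classical
  refine ⟨sayA (Fintype.card X) (Nat.lt_two_pow_self).le (fun x => x) (fun x =>
    sayB (Fintype.card Z) (Nat.lt_two_pow_self).le (fun y => f x y) (fun z => Prot.out z)), ?_⟩
  apply zeroError_of_res
  intro x y
  exact ⟨_, Res.sayA (Res.sayB (Res.out _ _ _))⟩

end Pool.Agent.W975.EA
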