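import Mathlib

/-!
# Two-party protocols, external information cost and expected communication

Definitions for `MP_ea601a_lc`: protocol trees with private and public randomness, their
transcripts (leaves), zero-error protocols, mutual information, the zero-error external information
complexity of a function and the zero-error expected communication complexity of `n` independent
copies of a function.
-/

open scoped BigOperators

namespace Pool.Agent.W975.EA

/-- Protocol trees for two players, Alice with an input in `X` and Bob with an input in `Y`,
with outputs in `Z`.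

* `out z`: the protocol stops with output `z`.
* `alice f l r`: Alice sends one bit to Bob.  On input `x` the bit is `1` with probability `f x`
  (private randomness of Alice) and `0` otherwise; the protocol continues with `r` after the bit
  `1` and with `l` after the bit `0`.
* `bob g l r`: Bob sends one bit to Alice, which is `1` with probability `g y`.
* `coin c l r`: a public coin is tossed; it is `1` with probability `c`.  Nobody sends a bit, but
  the result is visible to everybody.

All the random choices at the nodes are independent.  -/
inductive Prot (X Y Z : Type) : Type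
  | out (z : Z) : Prot X Y Z
  | alice (f : X → Set.Icc (0 : ℝ) 1) (l r : Prot X Y Z) : Prot X Y Z
  | bob (g : Y → Set.Icc (0 : ℝ) 1) (l r : Prot X Y Z) : Prot X Y Z
  | coin (c : Set.Icc (0 : ℝ) 1) (l r : Prot X Y Z) : Prot X Y Z

/-- The transcripts of a protocol: the leaves of the protocol tree.  A leaf determines all the
bits that were sent and all the public coins. -/
def Leaf {X Y Z : Type} : Prot X Y Z → Type
  | .out _ => Unit
  | .alice _ l r => Leaf l ⊕ Leaf r
  | .bob _ l r => Leaf l ⊕ Leaf r
  | .coin _ l r => Leaf l ⊕ Leaf r

/-- There are finitely many transcripts. -/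
instance Leaf.fintype {X Y Z : Type} : (P : Prot X Y Z) → Fintype (Leaf P)
  | .out _ => inferInstanceAs (Fintype Unit)
  | .alice _ l r =>
      letI := Leaf.fintype l
      letI := Leaf.fintype r
      inferInstanceAs (Fintype (Leaf l ⊕ Leaf r))
  | .bob _ l r =>
      letI := Leaf.fintype l
      letI := Leaf.fintype r
      inferInstanceAs (Fintype (Leaf l ⊕ Leaf r))
  | .coin _ l r =>
      letI := Leaf.fintype l
      letI := Leaf.fintype r
      inferInstanceAs (Fintype (Leaf l ⊕ Leaf r))

/-- The output of the protocol at a transcript. -/
def label {X Y Z : Type} : (P : Prot X Y Z) → Leaf P → Z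
  | .out z, _ => z
  | .alice _ l _, Sum.inl t => label l t
  | .alice _ _ r, Sum.inr t => label r t
  | .bob _ l _, Sum.inl t => label l t
  | .bob _ _ r, Sum.inr t => label r t
  | .coin _ l _, Sum.inl t => label l t
  | .coin _ _ r, Sum.inr t => label r t

/-- The number of bits sent by the players in a transcript (public coins are free). -/
def bits {X Y Z : Type} : (P : Prot X Y Z) → Leaf P → ℕ
  | .out _, _ => 0
  | .alice _ l _, Sum.inl t => bits l t + 1
  | .alice _ _ r, Sum.inr t => bits r t + 1
  | .bob _ l _, Sum.inl t => bits l t + 1
  | .bob _ _ r, Sum.inr t => bits r t + 1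
  | .coin _ l _, Sum.inl t => bits l t
  | .coin _ _ r, Sum.inr t => bits r t

/-- `prob P x y t` is the probability of the transcript `t` on the inputs `x` and `y`. -/
noncomputable def prob {X Y Z : Type} : (P : Prot X Y Z) → X → Y → Leaf P → ℝ
  | .out _, _, _, _ => 1
  | .alice f l _, x, y, Sum.inl t => (1 - (f x : ℝ)) * prob l x y t
  | .alice f _ r, x, y, Sum.inr t => (f x : ℝ) * prob r x y t
  | .bob g l _, x, y, Sum.inl t => (1 - (g y : ℝ)) * prob l x y t
  | .bob g _ r, x, y, Sum.inr t => (g y : ℝ) * prob r x y t
  | .coin c l _, x, y, Sum.inl t => (1 - (c : ℝ)) * prob l x y t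
  | .coin c _ r, x, y, Sum.inr t => (c : ℝ) * prob r x y t

/-- The protocol `P` computes the function `f` with zero error: on every pair of inputs, every
transcript that has positive probability gives the correct output. -/
def ZeroError {X Y Z : Type} (P : Prot X Y Z) (f : X → Y → Z) : Prop :=
  ∀ x y t, 0 < prob P x y t → label P t = f x y

/-- The mutual information (in bits) of the two components of a random pair with the joint
distribution `p`. -/
noncomputable def mutualInfo {A B : Type} [Fintype A] [Fintype B] (p : A → B → ℝ) : ℝ :=
  ∑ a, ∑ b, p a b * Real.logb 2 (p a b / ((∑ b', p a b') * ∑ a', p a' b))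

/-- The external information cost `I(Π; XY)` of a protocol: the mutual information of the
transcript and the pair of inputs, where the inputs have the distribution `μ`. -/
noncomputable def infoCost {X Y Z : Type} [Fintype X] [Fintype Y] (μ : X × Y → ℝ)
    (P : Prot X Y Z) : ℝ :=
  mutualInfo (fun (t : Leaf P) (w : X × Y) => μ w * prob P w.1 w.2 t)

/-- The expected number of bits exchanged by the protocol `P` when the inputs have the
distribution `μ`. -/
noncomputable def expBits {X Y Z : Type} [Fintype X] [Fintype Y] (μ : X × Y → ℝ)
    (P : Prot X Y Z) : ℝ :=
  ∑ w : X × Y, μ w * ∑ t : Leaf P, prob P w.1 w.2 t * (bits P t : ℝ)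

/-- The zero-error external information complexity `IC^ext(F, 0, μ)`: the infimum of the
external information costs of the zero-error protocols for `F`. -/
noncomputable def ICext {X Y Z : Type} [Fintype X] [Fintype Y] (F : X → Y → Z)
    (μ : X × Y → ℝ) : ℝ :=
  sInf {I : ℝ | ∃ P : Prot X Y Z, ZeroError P F ∧ I = infoCost μ P}

/-- The zero-error expected (average) communication complexity of a function `F` under the
distribution `μ` of the inputs: the infimum of the expected numbers of bits of the zero-error
protocols for `F`. -/
noncomputable def avgCC {X Y Z : Type} [Fintype X] [Fintype Y] (F : X → Y → Z)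
    (μ : X × Y → ℝ) : ℝ :=
  sInf {c : ℝ | ∃ P : Prot X Y Z, ZeroError P F ∧ c = expBits μ P}

/-- `n` independent copies of the function `F`. -/
def copies {X Y Z : Type} (F : X → Y → Z) (n : ℕ) (x : Fin n → X) (y : Fin n → Y) :
    Fin n → Z :=
  fun i => F (x i) (y i)

/-- The product distribution `μ^n` on the inputs of `n` copies. -/
def power {X Y : Type} (μ : X × Y → ℝ) (n : ℕ) : (Fin n → X) × (Fin n → Y) → ℝ :=
  fun w => ∏ i, μ (w.1 i, w.2 i)

/-- The zero-error expected communication complexity of `F^n` under `μ^n`. -/
noncomputable def CCn {X Y Z : Type} [Fintype X] [Fintype Y] (F : X → Y → Z)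
    (μ : X × Y → ℝ) (n : ℕ) : ℝ :=
  avgCC (copies F n) (power μ n)

end Pool.Agent.W975.EA
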