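import Pool.Agent.W975.EA.Upper

/-!
# The example
-/

open scoped BigOperators
open Finset

namespace Pool.Agent.W975.EA

/-- Counting the vectors with prescribed restriction. -/
theorem card_cyl {I A : Type} [Fintype I] [DecidableEq I] [Fintype A] [DecidableEq A]
    (ι : A → I) (hι : Function.Injective ι) (D : Finset (A → Bool)) :
    (univ.filter fun x : I → Bool => (fun a => x (ι a)) ∈ D).card * 2 ^ Fintype.card A
      = 2 ^ Fintype.card I * D.card := by
  classical
  let R := {i : I // ¬ i ∈ Set.range ι}
  let e : (I → Bool) ≃ (A → Bool) × (R → Bool) :=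
    (Equiv.piEquivPiSubtypeProd (fun i => i ∈ Set.range ι) (fun _ => Bool)).trans
      ((Equiv.arrowCongr (Equiv.ofInjective ι hι).symm (Equiv.refl Bool)).prodCongr
        (Equiv.refl _))
  have he : ∀ x, (e x).1 = fun a => x (ι a) := by
    intro x
    funext a
    rfl
  have h1 : (univ.filter fun x : I → Bool => (fun a => x (ι a)) ∈ D).card
      = D.card * Fintype.card (R → Bool) := by
    rw [← Finset.card_univ, ← Finset.card_product]
    apply Finset.card_bij (fun x _ => e x)
    · intro x hx
      rw [Finset.mem_filter] at hx
      rw [Finset.mem_product, he]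
      exact ⟨hx.2, Finset.mem_univ _⟩
    · intro x _ y _ hxy
      exact e.injective hxy
    · intro p hp
      refine ⟨e.symm p, ?_, e.apply_symm_apply p⟩
      rw [Finset.mem_filter]
      refine ⟨Finset.mem_univ _, ?_⟩
      rw [← he, e.apply_symm_apply]
      exact (Finset.mem_product.1 hp).1
  have h2 : 2 ^ Fintype.card I = 2 ^ Fintype.card A * Fintype.card (R → Bool) := by
    have := Fintype.card_congr e
    rw [Fintype.card_prod, Fintype.card_fun, Fintype.card_fun, Fintype.card_bool] at this
    exact this
  rw [h1, h2]
  ring

variable (C : ℕ)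

/-- A numbering of the vectors of `C` bits. -/
noncomputable def num : (Fin C → Bool) ≃ Fin (2 ^ C) :=
  Fintype.equivFinOfCardEq (by rw [Fintype.card_fun, Fintype.card_bool, Fintype.card_fin])

/-- The inputs: vectors of `2 ^ C + 1` bits. -/
abbrev Inp (C : ℕ) : Type := Fin (2 ^ C + 1) → Bool

/-- The index given by an input of Alice: the `C` bits after the first one. -/
def idx (x : Inp C) : Fin C → Bool :=
  fun i => x (Fin.succ (Fin.castLE (Nat.lt_two_pow_self).le i))

/-- The table given by an input of Bob: all the bits after the first one. -/
noncomputable def table (y : Inp C) (w : Fin C → Bool) : Bool := y (Fin.succ (num C w))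

/-- The example. -/
noncomputable def ex : Setup (Inp C) (Inp C) (Fin C → Bool) where
  jx x := x 0
  wx x := idx C x
  ky y := y 0
  tb y w := table C y w
  hX := by
    intro j D
    classical
    let ι : Option (Fin C) → Fin (2 ^ C + 1) := fun o =>
      o.elim 0 (fun i => Fin.succ (Fin.castLE (Nat.lt_two_pow_self).le i))
    have hι : Function.Injective ι := by
      intro a b hab
      rcases a with _ | a <;> rcases b with _ | b
      · rfl
      · exact (Fin.succ_ne_zero (Fin.castLE (Nat.lt_two_pow_self (n := C)).le b) hab.symm).elim
      · exact (Fin.succ_ne_zero (Fin.castLE (Nat.lt_two_pow_self (n := C)).le a) hab).elim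
      · have h1 : Fin.castLE (Nat.lt_two_pow_self (n := C)).le a
            = Fin.castLE (Nat.lt_two_pow_self (n := C)).le b := Fin.succ_injective _ hab
        have h2 := Fin.castLE_injective _ h1
        rw [h2]
    let D' : Finset (Option (Fin C) → Bool) :=
      univ.filter fun v => v none = j ∧ (fun i => v (some i)) ∈ D
    have hD' : D'.card = D.card := by
      apply Finset.card_bij (fun v _ => fun i => v (some i))
      · intro v hv
        exact (Finset.mem_filter.1 hv).2.2
      · intro u hu v hv huv
        have h1 := (Finset.mem_filter.1 hu).2.1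
        have h2 := (Finset.mem_filter.1 hv).2.1
        funext o
        rcases o with _ | i
        · rw [h1, h2]
        · exact congrFun huv i
      · intro w hw
        refine ⟨fun o => o.elim j w, ?_, rfl⟩
        rw [Finset.mem_filter]
        exact ⟨Finset.mem_univ _, rfl, hw⟩
    have h := card_cyl ι hι D'
    rw [hD'] at h
    have hset : (univ.filter fun x : Inp C => (fun a => x (ι a)) ∈ D')
        = univ.filter fun x : Inp C => x 0 = j ∧ idx C x ∈ D := by
      apply Finset.filter_congr
      intro x _
      constructor
      · intro hx
        exact (Finset.mem_filter.1 hx).2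
      · intro hx
        rw [Finset.mem_filter]
        exact ⟨Finset.mem_univ _, hx⟩
    rw [hset] at h
    have e1 : Fintype.card (Option (Fin C)) = C + 1 := by simp
    have e2 : Fintype.card (Inp C) = 2 ^ Fintype.card (Fin (2 ^ C + 1)) := by
      rw [Fintype.card_fun, Fintype.card_bool]
    have e3 : Fintype.card (Fin C → Bool) = 2 ^ C := by
      rw [Fintype.card_fun, Fintype.card_bool, Fintype.card_fin]
    rw [e2, e3]
    rw [e1] at h
    have h' : ((univ.filter fun x : Inp C => x 0 = j ∧ idx C x ∈ D).card : ℝ) * 2 ^ (C + 1)
        = 2 ^ Fintype.card (Fin (2 ^ C + 1)) * D.card := by exact_mod_cast h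
    rw [pow_succ] at h'
    push_cast
    linarith
  hY := by
    intro k D
    classical
    let ι : Option {w // w ∈ D} → Fin (2 ^ C + 1) := fun o =>
      o.elim 0 (fun w => Fin.succ (num C w.1))
    have hι : Function.Injective ι := by
      intro a b hab
      rcases a with _ | a <;> rcases b with _ | b
      · rfl
      · exact (Fin.succ_ne_zero (num C b.1) hab.symm).elim
      · exact (Fin.succ_ne_zero (num C a.1) hab).elim
      · have h1 : num C a.1 = num C b.1 := Fin.succ_injective _ hab
        have h2 := (num C).injective h1
        rw [Subtype.ext h2]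
    let v0 : Option {w // w ∈ D} → Bool := fun o => o.elim k (fun _ => true)
    have h := card_cyl ι hι {v0}
    have hset : (univ.filter fun y : Inp C => (fun a => y (ι a)) ∈
        ({v0} : Finset (Option {w // w ∈ D} → Bool)))
        = univ.filter fun y : Inp C => y 0 = k ∧ ∀ w ∈ D, table C y w = true := by
      apply Finset.filter_congr
      intro y _
      rw [Finset.mem_singleton]
      constructor
      · intro hy
        refine ⟨congrFun hy none, fun w hw => congrFun hy (some ⟨w, hw⟩)⟩
      · rintro ⟨h1, h2⟩
        funext o
        rcases o with _ | w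
        · exact h1
        · exact h2 w.1 w.2
    rw [hset, Finset.card_singleton, mul_one] at h
    have e1 : Fintype.card (Option {w // w ∈ D}) = D.card + 1 := by simp
    have e2 : Fintype.card (Inp C) = 2 ^ Fintype.card (Fin (2 ^ C + 1)) := by
      rw [Fintype.card_fun, Fintype.card_bool]
    rw [e2]
    rw [e1] at h
    have h' : ((univ.filter fun y : Inp C => y 0 = k ∧ ∀ w ∈ D, table C y w = true).card : ℝ)
        * 2 ^ (D.card + 1) = 2 ^ Fintype.card (Fin (2 ^ C + 1)) := by exact_mod_cast h
    rw [pow_succ] at h'
    push_cast
    linarith
  posX := Fintype.card_pos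
  posY := Fintype.card_pos
  posW := Fintype.card_pos

end Pool.Agent.W975.EA
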