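import Pool.Agent.W975.EA.Basic
import Pool.Agent.W975.EA.Analytic

/-!
# The lower bound for the external information cost
-/

open scoped BigOperators
open Real Finset

namespace Pool.Agent.W975.EA

/-- The data of the example: Alice's input has a bit `jx` and an index `wx`, Bob's input has
a bit `ky` and a table `tb`; all these are uniformly distributed. -/
structure Setup (X Y W : Type) [Fintype X] [Fintype Y] [Fintype W] [DecidableEq W] where
  jx : X → Bool
  wx : X → W
  ky : Y → Bool
  tb : Y → W → Bool
  hX : ∀ (j : Bool) (D : Finset W),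
    ((univ.filter fun x => jx x = j ∧ wx x ∈ D).card : ℝ) * (2 * Fintype.card W)
      = Fintype.card X * D.card
  hY : ∀ (k : Bool) (D : Finset W),
    ((univ.filter fun y => ky y = k ∧ ∀ w ∈ D, tb y w = true).card : ℝ) * (2 * 2 ^ D.card)
      = Fintype.card Y
  posX : 0 < Fintype.card X
  posY : 0 < Fintype.card Y
  posW : 0 < Fintype.card W

variable {X Y W : Type} [Fintype X] [Fintype Y] [Fintype W] [DecidableEq W]

/-- The function: the table of Bob at the index of Alice, or the exclusive or of the bits. -/
def Setup.F (S : Setup X Y W) (x : X) (y : Y) : Bool :=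
  S.tb y (S.wx x) || xor (S.jx x) (S.ky y)

/-- The distribution of the inputs. -/
noncomputable def Setup.mu (S : Setup X Y W) (δ : ℝ) (w : X × Y) : ℝ :=
  if S.jx w.1 = S.ky w.2 then
    (if S.tb w.2 (S.wx w.1) = true then
      4 * (1 - δ) / ((Fintype.card X : ℝ) * (Fintype.card Y : ℝ)) else 0)
  else 2 * δ / ((Fintype.card X : ℝ) * (Fintype.card Y : ℝ))

theorem Setup.mu_nonneg (S : Setup X Y W) {δ : ℝ} (h0 : 0 ≤ δ) (h1 : δ ≤ 1) (w : X × Y) :
    0 ≤ S.mu δ w := by
  unfold Setup.mu
  split_ifs
  · apply div_nonneg _ (by positivity); linarith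
  · exact le_refl _
  · apply div_nonneg _ (by positivity); linarith

/-- Splitting a sum over the pairs of inputs according to the bits. -/
theorem Setup.sum_split (S : Setup X Y W) (φ : X × Y → ℝ) :
    ∑ w, φ w = (∑ w ∈ (univ.filter fun x => S.jx x = false) ×ˢ
          (univ.filter fun y => S.ky y = false), φ w)
      + (∑ w ∈ (univ.filter fun x => S.jx x = true) ×ˢ
          (univ.filter fun y => S.ky y = true), φ w)
      + ∑ w ∈ univ.filter (fun w : X × Y => S.jx w.1 ≠ S.ky w.2), φ w := by
  rw [← Finset.filter_product, ← Finset.filter_product, Finset.univ_product_univ,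
    Finset.sum_filter, Finset.sum_filter, Finset.sum_filter, ← Finset.sum_add_distrib,
    ← Finset.sum_add_distrib]
  apply Finset.sum_congr rfl
  intro w _
  rcases h1 : S.jx w.1 <;> rcases h2 : S.ky w.2 <;> simp

/-- The same for the mixed cell. -/
theorem Setup.sum_mixed (S : Setup X Y W) (φ : X × Y → ℝ) :
    ∑ w ∈ univ.filter (fun w : X × Y => S.jx w.1 ≠ S.ky w.2), φ w
      = (∑ w ∈ (univ.filter fun x => S.jx x = false) ×ˢ
          (univ.filter fun y => S.ky y = true), φ w)
      + (∑ w ∈ (univ.filter fun x => S.jx x = true) ×ˢ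
          (univ.filter fun y => S.ky y = false), φ w) := by
  rw [← Finset.filter_product, ← Finset.filter_product, Finset.univ_product_univ,
    Finset.sum_filter, Finset.sum_filter, Finset.sum_filter, ← Finset.sum_add_distrib]
  apply Finset.sum_congr rfl
  intro w _
  rcases h1 : S.jx w.1 <;> rcases h2 : S.ky w.2 <;> simp

theorem Setup.card_jx (S : Setup X Y W) (j : Bool) :
    ((univ.filter fun x => S.jx x = j).card : ℝ) = Fintype.card X / 2 := by
  have h := S.hX j univ
  simp only [Finset.mem_univ, and_true, Finset.card_univ] at h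
  have hW : (0 : ℝ) < Fintype.card W := by exact_mod_cast S.posW
  field_simp
  have h2 : ((univ.filter fun x => S.jx x = j).card : ℝ) * 2 * Fintype.card W
      = Fintype.card X * Fintype.card W := by linarith
  exact mul_right_cancel₀ hW.ne' h2

theorem Setup.card_ky (S : Setup X Y W) (k : Bool) :
    ((univ.filter fun y => S.ky y = k).card : ℝ) = Fintype.card Y / 2 := by
  have h := S.hY k ∅
  simp at h
  linarith

/-- The contribution of one transcript with output `1`. -/
theorem Setup.leaf_bound (S : Setup X Y W) {δ : ℝ} {C : ℕ} (hW : Fintype.card W = 2 ^ C)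
    (hδ0 : 0 < δ) (hδ1 : δ < 1) (hC : 8 ≤ δ * ((C : ℝ) - 4))
    (a : X → ℝ) (b : Y → ℝ) (ha : ∀ x, 0 ≤ a x) (hb : ∀ y, 0 ≤ b y)
    (hz : ∀ x y, 0 < a x → 0 < b y → S.F x y = true) :
    (∑ w : X × Y, (if S.jx w.1 = S.ky w.2 then S.mu δ w * (a w.1 * b w.2) else 0))
        * ((C + 1 / 2) * log 2) ≤
      ∑ w : X × Y, S.mu δ w * (a w.1 * b w.2) *
        log (S.mu δ w * (a w.1 * b w.2) /
          ((∑ w' : X × Y, S.mu δ w' * (a w'.1 * b w'.2)) * S.mu δ w)) := by
  classical
  set K : ℝ := (Fintype.card X : ℝ) * (Fintype.card Y : ℝ) with hK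
  have hXpos : (0 : ℝ) < Fintype.card X := by exact_mod_cast S.posX
  have hYpos : (0 : ℝ) < Fintype.card Y := by exact_mod_cast S.posY
  have hKpos : 0 < K := mul_pos hXpos hYpos
  have h1δ : 0 < 1 - δ := by linarith
  -- the sums
  set U : Bool → ℝ := fun j => ∑ x ∈ univ.filter (fun x => S.jx x = j), a x with hU
  set V : Bool → ℝ := fun k => ∑ y ∈ univ.filter (fun y => S.ky y = k), b y with hV
  have hU0 : ∀ j, 0 ≤ U j := fun j => Finset.sum_nonneg fun x _ => ha x
  have hV0 : ∀ k, 0 ≤ V k := fun k => Finset.sum_nonneg fun y _ => hb y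
  have hUV : ∀ j k, ∑ w ∈ (univ.filter fun x => S.jx x = j) ×ˢ
      (univ.filter fun y => S.ky y = k), a w.1 * b w.2 = U j * V k := by
    intro j k
    rw [Finset.sum_product, hU, hV, Finset.sum_mul_sum]
  -- the index sets
  set D : Bool → Finset W := fun j =>
    (univ.filter fun x => S.jx x = j ∧ 0 < a x).image S.wx with hD
  set d : Bool → ℕ := fun j => (D j).card with hd
  have hdle : ∀ j, d j ≤ 2 ^ C := by
    intro j; rw [← hW]; exact Finset.card_le_univ _
  have hmemD : ∀ x, 0 < a x → S.wx x ∈ D (S.jx x) := by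
    intro x hx
    rw [hD]
    simp only [Finset.mem_image, Finset.mem_filter, Finset.mem_univ, true_and]
    exact ⟨x, ⟨rfl, hx⟩, rfl⟩
  have hNpos : (0 : ℝ) < 2 ^ C := by positivity
  have hWr : (Fintype.card W : ℝ) = 2 ^ C := by rw [hW]; push_cast; ring
  -- cardinalities of the supports
  have hAcard : ∀ j, ((univ.filter fun x => S.jx x = j ∧ 0 < a x).card : ℝ)
      ≤ Fintype.card X * d j / (2 * 2 ^ C) := by
    intro j
    have h1 := S.hX j (D j)
    rw [hWr] at h1
    rw [le_div_iff₀ (by positivity)]
    rw [← h1]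
    apply mul_le_mul_of_nonneg_right _ (by positivity)
    have : (univ.filter fun x => S.jx x = j ∧ 0 < a x) ⊆
        (univ.filter fun x => S.jx x = j ∧ S.wx x ∈ D j) := by
      intro x hx
      simp only [Finset.mem_filter, Finset.mem_univ, true_and] at hx ⊢
      refine ⟨hx.1, ?_⟩
      have := hmemD x hx.2
      rwa [hx.1] at this
    exact_mod_cast Finset.card_le_card this
  have hBcard : ∀ j, ((univ.filter fun y => S.ky y = j ∧ 0 < b y).card : ℝ)
      ≤ Fintype.card Y / (2 * 2 ^ d j) := by
    intro j
    have h1 := S.hY j (D j)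
    rw [le_div_iff₀ (by positivity)]
    rw [← h1]
    apply mul_le_mul_of_nonneg_right _ (by positivity)
    have : (univ.filter fun y => S.ky y = j ∧ 0 < b y) ⊆
        (univ.filter fun y => S.ky y = j ∧ ∀ w ∈ D j, S.tb y w = true) := by
      intro y hy
      simp only [Finset.mem_filter, Finset.mem_univ, true_and] at hy ⊢
      refine ⟨hy.1, ?_⟩
      intro w hw
      rw [hD] at hw
      simp only [Finset.mem_image, Finset.mem_filter, Finset.mem_univ, true_and] at hw
      obtain ⟨x, ⟨hx1, hx2⟩, rfl⟩ := hw
      have h2 := hz x y hx2 hy.2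
      unfold Setup.F at h2
      rw [hx1, hy.1] at h2
      simpa using h2
    exact_mod_cast Finset.card_le_card this
  -- values of `mu * a * b`
  have hval0 : ∀ j, ∀ w ∈ (univ.filter fun x => S.jx x = j) ×ˢ
      (univ.filter fun y => S.ky y = j),
      S.mu δ w * (a w.1 * b w.2) = 4 * (1 - δ) / K * (a w.1 * b w.2) := by
    intro j w hw
    simp only [Finset.mem_product, Finset.mem_filter, Finset.mem_univ, true_and] at hw
    by_cases hab : 0 < a w.1 ∧ 0 < b w.2
    · have h2 := hz w.1 w.2 hab.1 hab.2
      unfold Setup.F at h2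
      rw [hw.1, hw.2] at h2
      have h3 : S.tb w.2 (S.wx w.1) = true := by simpa using h2
      unfold Setup.mu
      rw [if_pos (by rw [hw.1, hw.2]), if_pos h3]
    · have : a w.1 * b w.2 = 0 := by
        by_cases h4 : 0 < a w.1
        · have h5 : ¬ 0 < b w.2 := fun h => hab ⟨h4, h⟩
          rw [le_antisymm (not_lt.1 h5) (hb w.2), mul_zero]
        · rw [le_antisymm (not_lt.1 h4) (ha w.1), zero_mul]
      rw [this]; ring
  have hval1 : ∀ w ∈ univ.filter (fun w : X × Y => S.jx w.1 ≠ S.ky w.2),
      S.mu δ w = 2 * δ / K := by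
    intro w hw
    simp only [Finset.mem_filter, Finset.mem_univ, true_and] at hw
    unfold Setup.mu
    rw [if_neg hw]
  -- the three masses
  set p : Bool → ℝ := fun j => 4 * (U j * V j) / K with hp
  set Q : ℝ := 2 * (U false * V true + U true * V false) / K with hQ
  have hp0 : ∀ j, 0 ≤ p j := fun j => by
    rw [hp]; exact div_nonneg (mul_nonneg (by norm_num) (mul_nonneg (hU0 j) (hV0 j))) hKpos.le
  have hQ0 : 0 ≤ Q := by
    rw [hQ]
    exact div_nonneg (mul_nonneg (by norm_num) (add_nonneg (mul_nonneg (hU0 _) (hV0 _))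
      (mul_nonneg (hU0 _) (hV0 _)))) hKpos.le
  have hsum0 : ∀ j, ∑ w ∈ (univ.filter fun x => S.jx x = j) ×ˢ
      (univ.filter fun y => S.ky y = j), S.mu δ w * (a w.1 * b w.2) = (1 - δ) * p j := by
    intro j
    rw [Finset.sum_congr rfl (hval0 j), ← Finset.mul_sum, hUV, hp]
    ring
  have hsum1 : ∑ w ∈ univ.filter (fun w : X × Y => S.jx w.1 ≠ S.ky w.2),
      S.mu δ w * (a w.1 * b w.2) = δ * Q := by
    have : ∀ w ∈ univ.filter (fun w : X × Y => S.jx w.1 ≠ S.ky w.2),
        S.mu δ w * (a w.1 * b w.2) = 2 * δ / K * (a w.1 * b w.2) := by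
      intro w hw; rw [hval1 w hw]
    rw [Finset.sum_congr rfl this, ← Finset.mul_sum, S.sum_mixed, hUV, hUV, hQ]
    ring
  set P := ∑ w' : X × Y, S.mu δ w' * (a w'.1 * b w'.2) with hP
  have hPeq : P = (1 - δ) * (p false + p true) + δ * Q := by
    rw [hP, S.sum_split, hsum0, hsum0, hsum1]
    ring
  have hP0 : 0 ≤ P := by
    rw [hPeq]
    have := mul_nonneg h1δ.le (add_nonneg (hp0 false) (hp0 true))
    have := mul_nonneg hδ0.le hQ0
    linarith
  -- the left hand side
  have hLHS : (∑ w : X × Y, (if S.jx w.1 = S.ky w.2 then S.mu δ w * (a w.1 * b w.2) else 0))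
      = (1 - δ) * (p false + p true) := by
    rw [S.sum_split]
    have e0 : ∀ j, ∑ w ∈ (univ.filter fun x => S.jx x = j) ×ˢ (univ.filter fun y => S.ky y = j),
        (if S.jx w.1 = S.ky w.2 then S.mu δ w * (a w.1 * b w.2) else 0) = (1 - δ) * p j := by
      intro j
      rw [← hsum0 j]
      apply Finset.sum_congr rfl
      intro w hw
      simp only [Finset.mem_product, Finset.mem_filter, Finset.mem_univ, true_and] at hw
      rw [if_pos (by rw [hw.1, hw.2])]
    have e1 : ∑ w ∈ univ.filter (fun w : X × Y => S.jx w.1 ≠ S.ky w.2),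
        (if S.jx w.1 = S.ky w.2 then S.mu δ w * (a w.1 * b w.2) else 0) = 0 := by
      apply Finset.sum_eq_zero
      intro w hw
      simp only [Finset.mem_filter, Finset.mem_univ, true_and] at hw
      rw [if_neg hw]
    rw [e0, e0, e1]
    ring
  rw [hLHS, S.sum_split]
  -- positivity facts
  have hupos : ∀ w : X × Y, 0 < S.mu δ w * (a w.1 * b w.2) →
      0 < S.mu δ w ∧ 0 < a w.1 ∧ 0 < b w.2 := by
    intro w hw
    have hm := S.mu_nonneg hδ0.le hδ1.le w
    have hm' : 0 < S.mu δ w := by
      rcases hm.eq_or_lt with h | h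
      · rw [← h, zero_mul] at hw; exact absurd hw (lt_irrefl _)
      · exact h
    have ha' : 0 < a w.1 := by
      rcases (ha w.1).eq_or_lt with h | h
      · rw [← h] at hw; simp at hw
      · exact h
    have hb' : 0 < b w.2 := by
      rcases (hb w.2).eq_or_lt with h | h
      · rw [← h] at hw; simp at hw
      · exact h
    exact ⟨hm', ha', hb'⟩
  have hPpos : ∀ w : X × Y, 0 < S.mu δ w * (a w.1 * b w.2) → 0 < P := by
    intro w hw
    have h1 : S.mu δ w * (a w.1 * b w.2) ≤ P := by
      rw [hP]
      apply Finset.single_le_sum (f := fun w : X × Y => S.mu δ w * (a w.1 * b w.2))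
        (s := univ) _ (Finset.mem_univ w)
      intro i _
      exact mul_nonneg (S.mu_nonneg hδ0.le hδ1.le i) (mul_nonneg (ha _) (hb _))
    linarith
  have hnn : ∀ w : X × Y, 0 ≤ S.mu δ w * (a w.1 * b w.2) := fun i =>
    mul_nonneg (S.mu_nonneg hδ0.le hδ1.le i) (mul_nonneg (ha _) (hb _))
  -- the cells with equal bits
  have hcell : ∀ j, (1 - δ) * (p j * log (p j * (2 ^ C * 2 ^ d j) / (P * d j))) ≤
      ∑ w ∈ (univ.filter fun x => S.jx x = j) ×ˢ (univ.filter fun y => S.ky y = j),
        S.mu δ w * (a w.1 * b w.2) *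
          log (S.mu δ w * (a w.1 * b w.2) / (P * S.mu δ w)) := by
    intro j
    have hVb : ∑ w ∈ ((univ.filter fun x => S.jx x = j) ×ˢ
        (univ.filter fun y => S.ky y = j)) with 0 < S.mu δ w * (a w.1 * b w.2),
        P * S.mu δ w ≤ P * ((1 - δ) * d j / (2 ^ C * 2 ^ d j)) := by
      rw [← Finset.mul_sum]
      apply mul_le_mul_of_nonneg_left _ hP0
      have hsub : (((univ.filter fun x => S.jx x = j) ×ˢ
          (univ.filter fun y => S.ky y = j)).filter
            fun w => 0 < S.mu δ w * (a w.1 * b w.2)) ⊆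
          (univ.filter fun x => S.jx x = j ∧ 0 < a x) ×ˢ
          (univ.filter fun y => S.ky y = j ∧ 0 < b y) := by
        intro w hw
        simp only [Finset.mem_product, Finset.mem_filter, Finset.mem_univ, true_and] at hw ⊢
        have := hupos w hw.2
        exact ⟨⟨hw.1.1, this.2.1⟩, hw.1.2, this.2.2⟩
      calc ∑ w ∈ ((univ.filter fun x => S.jx x = j) ×ˢ
          (univ.filter fun y => S.ky y = j)) with 0 < S.mu δ w * (a w.1 * b w.2), S.mu δ w
          ≤ ∑ w ∈ ((univ.filter fun x => S.jx x = j) ×ˢ
          (univ.filter fun y => S.ky y = j)) with 0 < S.mu δ w * (a w.1 * b w.2),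
            4 * (1 - δ) / K := by
            apply Finset.sum_le_sum
            intro w hw
            simp only [Finset.mem_product, Finset.mem_filter, Finset.mem_univ, true_and] at hw
            unfold Setup.mu
            rw [if_pos (by rw [hw.1.1, hw.1.2])]
            split_ifs
            · exact le_refl _
            · positivity
        _ ≤ ((((univ.filter fun x => S.jx x = j ∧ 0 < a x) ×ˢ
          (univ.filter fun y => S.ky y = j ∧ 0 < b y)).card : ℕ) : ℝ) * (4 * (1 - δ) / K) := by
            rw [Finset.sum_const, nsmul_eq_mul]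
            apply mul_le_mul_of_nonneg_right _ (by positivity)
            exact_mod_cast Finset.card_le_card hsub
        _ ≤ (Fintype.card X * d j / (2 * 2 ^ C) * (Fintype.card Y / (2 * 2 ^ d j)))
              * (4 * (1 - δ) / K) := by
            rw [Finset.card_product]
            push_cast
            apply mul_le_mul_of_nonneg_right _ (by positivity)
            exact mul_le_mul (hAcard j) (hBcard j) (by positivity) (by positivity)
        _ = (1 - δ) * d j / (2 ^ C * 2 ^ d j) := by
            rw [hK]; field_simp; ring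
    have h := logsum ((univ.filter fun x => S.jx x = j) ×ˢ (univ.filter fun y => S.ky y = j))
      (fun w => S.mu δ w * (a w.1 * b w.2)) (fun w => P * S.mu δ w)
      (P * ((1 - δ) * d j / (2 ^ C * 2 ^ d j))) (fun w _ => hnn w)
      (fun w _ hw => mul_pos (hPpos w hw) (hupos w hw).1) hVb
    rw [hsum0 j] at h
    refine le_trans (le_of_eq ?_) h
    rw [mul_assoc]
    congr 2
    rcases (hp0 j).eq_or_lt with h0 | h0
    · rw [← h0]; simp
    · congr 1
      rcases hP0.eq_or_lt with h3 | h3
      · rw [← h3]; simp
      · rcases Nat.eq_zero_or_pos (d j) with h4 | h4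
        · rw [h4]; simp
        · have : (0 : ℝ) < d j := by exact_mod_cast h4
          field_simp
  -- the mixed cell
  have hcell1 : δ * (Q * log (Q * (2 * 2 ^ C) / (P * ((d false + d true : ℕ) : ℝ)))) ≤
      ∑ w ∈ univ.filter (fun w : X × Y => S.jx w.1 ≠ S.ky w.2),
        S.mu δ w * (a w.1 * b w.2) *
          log (S.mu δ w * (a w.1 * b w.2) / (P * S.mu δ w)) := by
    have hVb : ∑ w ∈ (univ.filter (fun w : X × Y => S.jx w.1 ≠ S.ky w.2)) with
        0 < S.mu δ w * (a w.1 * b w.2),
        P * S.mu δ w ≤ P * (δ * ((d false + d true : ℕ) : ℝ) / (2 * 2 ^ C)) := by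
      rw [← Finset.mul_sum]
      apply mul_le_mul_of_nonneg_left _ hP0
      have hsub : ((univ.filter (fun w : X × Y => S.jx w.1 ≠ S.ky w.2)).filter
            fun w => 0 < S.mu δ w * (a w.1 * b w.2)) ⊆
          ((univ.filter fun x => S.jx x = false ∧ 0 < a x) ×ˢ
            (univ.filter fun y => S.ky y = true)) ∪
          ((univ.filter fun x => S.jx x = true ∧ 0 < a x) ×ˢ
            (univ.filter fun y => S.ky y = false)) := by
        intro w hw
        simp only [Finset.mem_product, Finset.mem_filter, Finset.mem_univ, true_and,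
          Finset.mem_union] at hw ⊢
        have h5 := hupos w hw.2
        rcases h1 : S.jx w.1 <;> rcases h2 : S.ky w.2
        · exact absurd (by rw [h1, h2]) hw.1
        · exact Or.inl ⟨⟨rfl, h5.2.1⟩, rfl⟩
        · exact Or.inr ⟨⟨rfl, h5.2.1⟩, rfl⟩
        · exact absurd (by rw [h1, h2]) hw.1
      calc ∑ w ∈ (univ.filter (fun w : X × Y => S.jx w.1 ≠ S.ky w.2)) with
          0 < S.mu δ w * (a w.1 * b w.2), S.mu δ w
          = ∑ w ∈ (univ.filter (fun w : X × Y => S.jx w.1 ≠ S.ky w.2)) with
          0 < S.mu δ w * (a w.1 * b w.2), 2 * δ / K := by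
            apply Finset.sum_congr rfl
            intro w hw
            exact hval1 w (Finset.mem_filter.1 hw).1
        _ ≤ ((((univ.filter fun x => S.jx x = false ∧ 0 < a x).card *
            (univ.filter fun y => S.ky y = true).card +
            (univ.filter fun x => S.jx x = true ∧ 0 < a x).card *
            (univ.filter fun y => S.ky y = false).card : ℕ) : ℝ)) * (2 * δ / K) := by
            rw [Finset.sum_const, nsmul_eq_mul]
            apply mul_le_mul_of_nonneg_right _ (by positivity)
            have h6 := Finset.card_le_card hsub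
            have h7 := h6.trans (Finset.card_union_le _ _)
            rw [Finset.card_product, Finset.card_product] at h7
            exact_mod_cast h7
        _ ≤ (Fintype.card X * d false / (2 * 2 ^ C) * (Fintype.card Y / 2) +
            Fintype.card X * d true / (2 * 2 ^ C) * (Fintype.card Y / 2)) * (2 * δ / K) := by
            push_cast
            rw [S.card_ky, S.card_ky]
            apply mul_le_mul_of_nonneg_right _ (by positivity)
            apply add_le_add
            · exact mul_le_mul_of_nonneg_right (hAcard false) (by positivity)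
            · exact mul_le_mul_of_nonneg_right (hAcard true) (by positivity)
        _ = δ * ((d false + d true : ℕ) : ℝ) / (2 * 2 ^ C) := by
            rw [hK]; push_cast; field_simp
    have h := logsum (univ.filter (fun w : X × Y => S.jx w.1 ≠ S.ky w.2))
      (fun w => S.mu δ w * (a w.1 * b w.2)) (fun w => P * S.mu δ w)
      (P * (δ * ((d false + d true : ℕ) : ℝ) / (2 * 2 ^ C))) (fun w _ => hnn w)
      (fun w _ hw => mul_pos (hPpos w hw) (hupos w hw).1) hVb
    rw [hsum1] at h
    refine le_trans (le_of_eq ?_) h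
    rw [mul_assoc]
    congr 2
    rcases hQ0.eq_or_lt with h0 | h0
    · rw [← h0]; simp
    · congr 1
      rcases hP0.eq_or_lt with h3 | h3
      · rw [← h3]; simp
      · rcases Nat.eq_zero_or_pos (d false + d true) with h4 | h4
        · rw [h4]; simp
        · have : (0 : ℝ) < ((d false + d true : ℕ) : ℝ) := by exact_mod_cast h4
          field_simp
  -- conclusion
  have hUd : ∀ j, 0 < U j → 1 ≤ d j := by
    intro j hj
    by_contra hcon
    have h0 : D j = ∅ := by
      rw [← Finset.card_eq_zero]
      have : d j = 0 := by omega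
      exact this
    have : U j = 0 := by
      rw [hU]
      apply Finset.sum_eq_zero
      intro x hx
      simp only [Finset.mem_filter, Finset.mem_univ, true_and] at hx
      by_contra hx'
      have hx2 : 0 < a x := lt_of_le_of_ne (ha x) (Ne.symm hx')
      have := hmemD x hx2
      rw [hx, h0] at this
      simp at this
    linarith
  have hpd : ∀ j, 0 < p j → 1 ≤ d j := by
    intro j hj
    apply hUd
    rcases (hU0 j).eq_or_lt with h | h
    · rw [hp] at hj
      simp only [← h] at hj
      simp at hj
    · exact h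
  have hQd : 0 < Q → 1 ≤ d false + d true := by
    intro hj
    by_contra hcon
    have h1 : ¬ 0 < U false := fun h => by have := hUd _ h; omega
    have h2 : ¬ 0 < U true := fun h => by have := hUd _ h; omega
    have e1 : U false = 0 := le_antisymm (not_lt.1 h1) (hU0 _)
    have e2 : U true = 0 := le_antisymm (not_lt.1 h2) (hU0 _)
    rw [hQ, e1, e2] at hj
    simp at hj
  have hpq : p false * p true ≤ Q ^ 2 := by
    have e1 : p false * p true = 16 * ((U false * V true) * (U true * V false)) / K ^ 2 := by
      rw [hp]; field_simp; ring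
    have e2 : Q ^ 2 = 4 * (U false * V true + U true * V false) ^ 2 / K ^ 2 := by
      rw [hQ]; field_simp; ring
    rw [e1, e2]
    apply div_le_div_of_nonneg_right _ (by positivity)
    nlinarith [sq_nonneg (U false * V true - U true * V false)]
  have hfin := analytic hδ0 hδ1 (hp0 false) (hp0 true) hQ0 hC (hpd false) (hpd true) hQd
    (by have := hdle false; have := hdle true; omega) hpq
  rw [← hPeq] at hfin
  have h1 := hcell false
  have h2 := hcell true
  linarith

end Pool.Agent.W975.EA
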