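import Pool.Agent.W975.EA.Lower

/-!
# The lower bound for the external information cost, conclusion
-/

open scoped BigOperators
open Real Finset

namespace Pool.Agent.W975.EA

variable {X Y W : Type} [Fintype X] [Fintype Y] [Fintype W] [DecidableEq W]

theorem Setup.sum_eq_bits (S : Setup X Y W) (δ : ℝ) :
    ∑ w : X × Y, (if S.jx w.1 = S.ky w.2 then S.mu δ w else 0) = 1 - δ := by
  classical
  have hXpos : (0 : ℝ) < Fintype.card X := by exact_mod_cast S.posX
  have hYpos : (0 : ℝ) < Fintype.card Y := by exact_mod_cast S.posY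
  rw [Fintype.sum_prod_type]
  have h : ∀ x : X, ∑ y : Y, (if S.jx x = S.ky y then S.mu δ (x, y) else 0)
      = (1 - δ) / Fintype.card X := by
    intro x
    have h1 : ∀ y : Y, (if S.jx x = S.ky y then S.mu δ (x, y) else 0)
        = if (S.ky y = S.jx x ∧ ∀ w ∈ ({S.wx x} : Finset W), S.tb y w = true)
          then 4 * (1 - δ) / ((Fintype.card X : ℝ) * (Fintype.card Y : ℝ)) else 0 := by
      intro y
      by_cases h2 : S.jx x = S.ky y
      · by_cases h3 : S.tb y (S.wx x) = true
        · rw [if_pos h2, if_pos ⟨h2.symm, by simpa using h3⟩]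
          unfold Setup.mu
          rw [if_pos h2, if_pos h3]
        · rw [if_pos h2, if_neg (by simp [h3])]
          unfold Setup.mu
          rw [if_pos h2, if_neg h3]
      · rw [if_neg h2, if_neg (fun h => h2 h.1.symm)]
    rw [Finset.sum_congr rfl fun y _ => h1 y, ← Finset.sum_filter, Finset.sum_const,
      nsmul_eq_mul]
    have h4 := S.hY (S.jx x) {S.wx x}
    rw [Finset.card_singleton] at h4
    have h5 : ((univ.filter fun y => S.ky y = S.jx x ∧
        ∀ w ∈ ({S.wx x} : Finset W), S.tb y w = true).card : ℝ) = Fintype.card Y / 4 := by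
      linarith
    rw [h5]
    field_simp
  rw [Finset.sum_congr rfl fun x _ => h x, Finset.sum_const, Finset.card_univ, nsmul_eq_mul]
  field_simp

theorem Setup.sum_ne_bits (S : Setup X Y W) (δ : ℝ) :
    ∑ w : X × Y, (if S.jx w.1 = S.ky w.2 then 0 else S.mu δ w) = δ := by
  classical
  have hXpos : (0 : ℝ) < Fintype.card X := by exact_mod_cast S.posX
  have hYpos : (0 : ℝ) < Fintype.card Y := by exact_mod_cast S.posY
  rw [Fintype.sum_prod_type]
  have h : ∀ x : X, ∑ y : Y, (if S.jx x = S.ky y then 0 else S.mu δ (x, y))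
      = δ / Fintype.card X := by
    intro x
    have h1 : ∀ y : Y, (if S.jx x = S.ky y then 0 else S.mu δ (x, y))
        = if (S.ky y = !(S.jx x))
          then 2 * δ / ((Fintype.card X : ℝ) * (Fintype.card Y : ℝ)) else 0 := by
      intro y
      by_cases h2 : S.jx x = S.ky y
      · rw [if_pos h2, if_neg (by rw [h2]; simp)]
      · have h3 : S.ky y = !(S.jx x) := by
          revert h2; rcases S.jx x <;> rcases S.ky y <;> simp
        rw [if_neg h2, if_pos h3]
        unfold Setup.mu
        rw [if_neg h2]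
    rw [Finset.sum_congr rfl fun y _ => h1 y, ← Finset.sum_filter, Finset.sum_const,
      nsmul_eq_mul, S.card_ky]
    field_simp
  rw [Finset.sum_congr rfl fun x _ => h x, Finset.sum_const, Finset.card_univ, nsmul_eq_mul]
  field_simp

theorem Setup.sum_mu (S : Setup X Y W) (δ : ℝ) : ∑ w : X × Y, S.mu δ w = 1 := by
  have h1 := S.sum_eq_bits δ
  have h2 := S.sum_ne_bits δ
  have h3 : ∑ w : X × Y, S.mu δ w
      = ∑ w : X × Y, (if S.jx w.1 = S.ky w.2 then S.mu δ w else 0)
        + ∑ w : X × Y, (if S.jx w.1 = S.ky w.2 then 0 else S.mu δ w) := by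
    rw [← Finset.sum_add_distrib]
    apply Finset.sum_congr rfl
    intro w _
    split_ifs <;> ring
  rw [h3, h1, h2]
  ring

/-- On the support of the distribution the function is `1`. -/
theorem Setup.F_of_mu_ne (S : Setup X Y W) {δ : ℝ} {w : X × Y} (h : S.mu δ w ≠ 0) :
    S.F w.1 w.2 = true := by
  unfold Setup.mu at h
  unfold Setup.F
  split_ifs at h with h1 h2
  · rw [h2]; rfl
  · exact absurd rfl h
  · have : xor (S.jx w.1) (S.ky w.2) = true := by
      revert h1; rcases S.jx w.1 <;> rcases S.ky w.2 <;> simp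
    rw [this]; simp

/-- The external information cost of a zero-error protocol. -/
theorem Setup.info_ge (S : Setup X Y W) {δ : ℝ} {C : ℕ} (hW : Fintype.card W = 2 ^ C)
    (hδ0 : 0 < δ) (hδ1 : δ < 1) (hC : 8 ≤ δ * ((C : ℝ) - 4))
    (P : Prot X Y Bool) (hP : ZeroError P S.F) :
    (1 - δ) * (C + 1 / 2) ≤ infoCost (S.mu δ) P := by
  classical
  have hlog2 : 0 < log 2 := log_pos (by norm_num)
  have hleaf : ∀ t : Leaf P,
      (∑ w : X × Y, (if S.jx w.1 = S.ky w.2 then S.mu δ w * prob P w.1 w.2 t else 0))
        * ((C + 1 / 2) * log 2) ≤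
      ∑ w : X × Y, S.mu δ w * prob P w.1 w.2 t *
        log (S.mu δ w * prob P w.1 w.2 t /
          ((∑ w' : X × Y, S.mu δ w' * prob P w'.1 w'.2 t) * S.mu δ w)) := by
    intro t
    rcases ht : label P t with _ | _
    · -- a transcript with output 0 has probability 0
      have h0 : ∀ w : X × Y, S.mu δ w * prob P w.1 w.2 t = 0 := by
        intro w
        by_contra hne
        have h1 : S.mu δ w ≠ 0 := fun h => hne (by rw [h, zero_mul])
        have h2 : prob P w.1 w.2 t ≠ 0 := fun h => hne (by rw [h, mul_zero])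
        have h3 : 0 < prob P w.1 w.2 t :=
          lt_of_le_of_ne (prob_nonneg P w.1 w.2 t) (Ne.symm h2)
        have h4 := hP w.1 w.2 t h3
        rw [ht, S.F_of_mu_ne h1] at h4
        exact Bool.noConfusion h4
      simp [h0]
    · have hz : ∀ x y, 0 < al P x t → 0 < be P y t → S.F x y = true := by
        intro x y hx hy
        have h3 : 0 < prob P x y t := by rw [prob_eq]; exact mul_pos hx hy
        have h4 := hP x y t h3
        rw [ht] at h4
        exact h4.symm
      have h := S.leaf_bound hW hδ0 hδ1 hC (fun x => al P x t) (fun y => be P y t)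
        (fun x => al_nonneg P x t) (fun y => be_nonneg P y t) hz
      simp only [prob_eq]
      exact h
  have hsum := Finset.sum_le_sum fun t (_ : t ∈ (univ : Finset (Leaf P))) => hleaf t
  rw [← Finset.sum_mul, Finset.sum_comm] at hsum
  have hL : ∑ w : X × Y, ∑ t : Leaf P,
      (if S.jx w.1 = S.ky w.2 then S.mu δ w * prob P w.1 w.2 t else 0) = 1 - δ := by
    rw [← S.sum_eq_bits δ]
    apply Finset.sum_congr rfl
    intro w _
    split_ifs with h
    · rw [← Finset.mul_sum, sum_prob, mul_one]
    · simp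
  rw [hL] at hsum
  have hI : infoCost (S.mu δ) P * log 2 = ∑ t : Leaf P, ∑ w : X × Y,
      S.mu δ w * prob P w.1 w.2 t *
        log (S.mu δ w * prob P w.1 w.2 t /
          ((∑ w' : X × Y, S.mu δ w' * prob P w'.1 w'.2 t) * S.mu δ w)) := by
    unfold infoCost mutualInfo
    rw [Finset.sum_mul]
    apply Finset.sum_congr rfl
    intro t _
    rw [Finset.sum_mul]
    apply Finset.sum_congr rfl
    intro w _
    have h1 : ∑ t' : Leaf P, S.mu δ w * prob P w.1 w.2 t' = S.mu δ w := by
      rw [← Finset.mul_sum, sum_prob, mul_one]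
    simp only [h1, Real.logb]
    field_simp
  rw [← hI] at hsum
  have : (1 - δ) * (C + 1 / 2) * log 2 ≤ infoCost (S.mu δ) P * log 2 := by linarith
  exact le_of_mul_le_mul_right this hlog2

end Pool.Agent.W975.EA
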