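import Pool.Agent.W975.EA.Instance

/-!
# The main theorem, with parameters
-/

open scoped BigOperators Topology
open Finset Filter

namespace Pool.Agent.W975.EA

/-- The gap for all parameters. -/
theorem gap (C l : ℕ) (hl : 0 < l) {δ : ℝ} (hδ0 : 0 < δ) (hδ1 : δ < 1)
    (hC : 8 ≤ δ * ((C : ℝ) - 4)) :
    ∃ L : ℝ, Tendsto (fun n : ℕ => CCn (ex C).F ((ex C).mu δ) n / n) atTop (𝓝 L) ∧
      L ≤ 3 / l + C + (3 * l - C) * δ + C * ((l - 1) * δ ^ 2) ∧
      (1 - δ) * (C + 1 / 2) ≤ ICext (ex C).F ((ex C).mu δ) := by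
  have hW : Fintype.card (Fin C → Bool) = 2 ^ C := by
    rw [Fintype.card_fun, Fintype.card_bool, Fintype.card_fin]
  have h0 := (ex C).mu_nonneg hδ0.le hδ1.le
  have h1 := (ex C).sum_mu δ
  obtain ⟨L, hL1, hL2⟩ := exists_limit (F := (ex C).F) h0 h1
  refine ⟨L, hL1, ?_, ?_⟩
  · have h2 := hL2 l hl.ne'
    have hz : ZeroError ((ex C).block hl hW) (copies (ex C).F l) :=
      zeroError_of_res fun x y => ⟨_, (ex C).block_res hl hW x y⟩
    have h3 := CCn_le h0 hz
    have h4 := (ex C).expBits_block hl hW hδ0.le hδ1.le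
    have hlr : (0 : ℝ) < l := by exact_mod_cast hl
    have h5 : CCn (ex C).F ((ex C).mu δ) l / l ≤
        (3 + C * l + (3 * l - C) * (l * δ) + C * (l * (l - 1) * δ ^ 2)) / l :=
      div_le_div_of_nonneg_right (h3.trans h4) hlr.le
    have h6 : (3 + (C : ℝ) * l + (3 * l - C) * (l * δ) + C * (l * (l - 1) * δ ^ 2)) / l
        = 3 / l + C + (3 * l - C) * δ + C * ((l - 1) * δ ^ 2) := by
      field_simp
    linarith
  · apply le_csInf
    · obtain ⟨P, hP⟩ := exists_zeroError (ex C).F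
      exact ⟨_, P, hP, rfl⟩
    · rintro I ⟨P, hP, rfl⟩
      exact (ex C).info_ge hW hδ0 hδ1 hC P hP

end Pool.Agent.W975.EA
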