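import Pool.Agent.W975.EA.Comb

/-!
# Product distributions and subadditivity
-/

open scoped BigOperators Topology
open Finset Filter

namespace Pool.Agent.W975.EA

variable {X Y Z : Type} [Fintype X] [Fintype Y]

/-- The expectation of a product of functions of the coordinates. -/
theorem sum_power (μ : X × Y → ℝ) (n : ℕ) (φ : Fin n → X × Y → ℝ) :
    ∑ w : (Fin n → X) × (Fin n → Y), power μ n w * ∏ i, φ i (w.1 i, w.2 i)
      = ∏ i, ∑ v : X × Y, μ v * φ i v := by
  classical
  rw [Finset.prod_univ_sum, Fintype.piFinset_univ]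
  rw [← (Equiv.arrowProdEquivProdArrow (Fin n) (fun _ => X) (fun _ => Y)).sum_comp]
  apply Finset.sum_congr rfl
  intro w _
  unfold power
  rw [← Finset.prod_mul_distrib]
  rfl

theorem power_nonneg {μ : X × Y → ℝ} (h : ∀ v, 0 ≤ μ v) (n : ℕ)
    (w : (Fin n → X) × (Fin n → Y)) : 0 ≤ power μ n w :=
  Finset.prod_nonneg fun i _ => h _

theorem sum_power_one {μ : X × Y → ℝ} (h1 : ∑ v, μ v = 1) (n : ℕ) :
    ∑ w : (Fin n → X) × (Fin n → Y), power μ n w = 1 := by
  have h := sum_power μ n (fun _ _ => 1)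
  simp only [Finset.prod_const_one, mul_one, h1] at h
  exact h

/-- The expectation of a function of one coordinate. -/
theorem sum_power_single {μ : X × Y → ℝ} (h1 : ∑ v, μ v = 1) (n : ℕ) (i : Fin n)
    (φ : X × Y → ℝ) :
    ∑ w : (Fin n → X) × (Fin n → Y), power μ n w * φ (w.1 i, w.2 i) = ∑ v, μ v * φ v := by
  classical
  have h := sum_power μ n (fun i' v => if i' = i then φ v else 1)
  have e1 : ∀ w : (Fin n → X) × (Fin n → Y),
      ∏ i', (if i' = i then φ (w.1 i', w.2 i') else 1) = φ (w.1 i, w.2 i) := by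
    intro w
    rw [Finset.prod_ite_eq' univ i (fun i' => φ (w.1 i', w.2 i'))]
    simp
  have e2 : ∏ i' : Fin n, ∑ v : X × Y, μ v * (if i' = i then φ v else 1) = ∑ v, μ v * φ v := by
    rw [← Finset.mul_prod_erase univ _ (Finset.mem_univ i)]
    rw [Finset.prod_eq_one, mul_one]
    · simp
    · intro i' hi'
      have := Finset.ne_of_mem_erase hi'
      simp [this, h1]
  rw [e2] at h
  rw [← h]
  apply Finset.sum_congr rfl
  intro w _
  rw [e1]

/-- The expectation of a product of functions of two coordinates. -/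
theorem sum_power_pair {μ : X × Y → ℝ} (h1 : ∑ v, μ v = 1) (n : ℕ) (i j : Fin n) (hij : i ≠ j)
    (φ ψ : X × Y → ℝ) :
    ∑ w : (Fin n → X) × (Fin n → Y), power μ n w * (φ (w.1 i, w.2 i) * ψ (w.1 j, w.2 j))
      = (∑ v, μ v * φ v) * ∑ v, μ v * ψ v := by
  classical
  have h := sum_power μ n (fun i' v => if i' = i then φ v else if i' = j then ψ v else 1)
  have e1 : ∀ w : (Fin n → X) × (Fin n → Y),
      ∏ i', (if i' = i then φ (w.1 i', w.2 i') else if i' = j then ψ (w.1 i', w.2 i') else 1)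
        = φ (w.1 i, w.2 i) * ψ (w.1 j, w.2 j) := by
    intro w
    rw [← Finset.mul_prod_erase univ _ (Finset.mem_univ i),
      ← Finset.mul_prod_erase (univ.erase i) _ (Finset.mem_erase.2 ⟨hij.symm, Finset.mem_univ j⟩)]
    rw [Finset.prod_eq_one, mul_one]
    · simp [hij.symm]
    · intro i' hi'
      have h2 := Finset.ne_of_mem_erase hi'
      have h3 := Finset.ne_of_mem_erase (Finset.mem_of_mem_erase hi')
      simp [h2, h3]
  have e2 : ∏ i' : Fin n, ∑ v : X × Y, μ v * (if i' = i then φ v else if i' = j then ψ v else 1)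
      = (∑ v, μ v * φ v) * ∑ v, μ v * ψ v := by
    rw [← Finset.mul_prod_erase univ _ (Finset.mem_univ i),
      ← Finset.mul_prod_erase (univ.erase i) _ (Finset.mem_erase.2 ⟨hij.symm, Finset.mem_univ j⟩)]
    rw [Finset.prod_eq_one, mul_one]
    · simp [hij.symm]
    · intro i' hi'
      have h2 := Finset.ne_of_mem_erase hi'
      have h3 := Finset.ne_of_mem_erase (Finset.mem_of_mem_erase hi')
      simp [h2, h3, h1]
  rw [e2] at h
  rw [← h]
  apply Finset.sum_congr rfl
  intro w _
  rw [e1]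

/-- Splitting a tuple. -/
def splitEquiv (A : Type) (m n : ℕ) : (Fin (m + n) → A) ≃ (Fin m → A) × (Fin n → A) where
  toFun f := (fun i => f (Fin.castAdd n i), fun i => f (Fin.natAdd m i))
  invFun p := Fin.append p.1 p.2
  left_inv f := by
    funext i
    refine Fin.addCases (fun i => ?_) (fun i => ?_) i
    · simp
    · simp
  right_inv p := by
    apply Prod.ext
    · funext i; simp
    · funext i; simp

/-- Splitting a pair of tuples. -/
def splitEquiv2 (A B : Type) (m n : ℕ) : (Fin (m + n) → A) × (Fin (m + n) → B) ≃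
    ((Fin m → A) × (Fin m → B)) × ((Fin n → A) × (Fin n → B)) :=
  ((splitEquiv A m n).prodCongr (splitEquiv B m n)).trans (Equiv.prodProdProdComm _ _ _ _)

theorem power_split (μ : X × Y → ℝ) (m n : ℕ) (w : (Fin (m + n) → X) × (Fin (m + n) → Y)) :
    power μ (m + n) w
      = power μ m (splitEquiv2 X Y m n w).1 * power μ n (splitEquiv2 X Y m n w).2 := by
  unfold power
  rw [Fin.prod_univ_add]
  rfl

theorem expBits_eq (μ : X × Y → ℝ) (P : Prot X Y Z) :
    expBits μ P = ∑ w : X × Y, μ w * ecost P w.1 w.2 := rfl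

theorem expBits_nonneg {μ : X × Y → ℝ} (h : ∀ v, 0 ≤ μ v) (P : Prot X Y Z) :
    0 ≤ expBits μ P := by
  rw [expBits_eq]
  exact Finset.sum_nonneg fun w _ => mul_nonneg (h w) (ecost_nonneg P _ _)

/-- Running one protocol after the other. -/
theorem exists_append {F : X → Y → Z} {μ : X × Y → ℝ} (h1 : ∑ v, μ v = 1) {m n : ℕ}
    (P : Prot (Fin m → X) (Fin m → Y) (Fin m → Z)) (hP : ZeroError P (copies F m))
    (Q : Prot (Fin n → X) (Fin n → Y) (Fin n → Z)) (hQ : ZeroError Q (copies F n)) :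
    ∃ R : Prot (Fin (m + n) → X) (Fin (m + n) → Y) (Fin (m + n) → Z),
      ZeroError R (copies F (m + n)) ∧
      expBits (power μ (m + n)) R = expBits (power μ m) P + expBits (power μ n) Q := by
  classical
  set R : Prot (Fin (m + n) → X) (Fin (m + n) → Y) (Fin (m + n) → Z) :=
    bind (comap (fun x i => x (Fin.castAdd n i)) (fun y i => y (Fin.castAdd n i)) P)
      (fun z1 => bind (comap (fun x i => x (Fin.natAdd m i)) (fun y i => y (Fin.natAdd m i)) Q)
        (fun z2 => Prot.out (Fin.append z1 z2))) with hR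
  have key : ∀ x y, Res R x y (copies F (m + n) x y)
      (ecost P (fun i => x (Fin.castAdd n i)) (fun i => y (Fin.castAdd n i)) +
        ecost Q (fun i => x (Fin.natAdd m i)) (fun i => y (Fin.natAdd m i))) := by
    intro x y
    have r1 := Res.comap (res_of_zeroError hP (fun i => x (Fin.castAdd n i))
      (fun i => y (Fin.castAdd n i)))
      (f := fun (x : Fin (m + n) → X) i => x (Fin.castAdd n i))
      (g := fun (y : Fin (m + n) → Y) i => y (Fin.castAdd n i)) (x := x) (y := y)
    have r2 := Res.comap (res_of_zeroError hQ (fun i => x (Fin.natAdd m i))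
      (fun i => y (Fin.natAdd m i)))
      (f := fun (x : Fin (m + n) → X) i => x (Fin.natAdd m i))
      (g := fun (y : Fin (m + n) → Y) i => y (Fin.natAdd m i)) (x := x) (y := y)
    have r3 := Res.bind r2 (k := fun z2 => Prot.out (Fin.append
      (copies F m (fun i => x (Fin.castAdd n i)) (fun i => y (Fin.castAdd n i))) z2))
      (Res.out _ x y)
    have r4 := Res.bind r1 (k := fun z1 =>
      bind (comap (fun x i => x (Fin.natAdd m i)) (fun y i => y (Fin.natAdd m i)) Q)
        (fun z2 => Prot.out (Fin.append z1 z2))) r3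
    rw [add_zero] at r4
    have e : Fin.append (copies F m (fun i => x (Fin.castAdd n i)) (fun i => y (Fin.castAdd n i)))
        (copies F n (fun i => x (Fin.natAdd m i)) (fun i => y (Fin.natAdd m i)))
        = copies F (m + n) x y := by
      funext i
      refine Fin.addCases (fun i => ?_) (fun i => ?_) i
      · simp [copies]
      · simp [copies]
    rw [e] at r4
    exact r4
  refine ⟨R, zeroError_of_res fun x y => ⟨_, key x y⟩, ?_⟩
  rw [expBits_eq, expBits_eq, expBits_eq]
  rw [Finset.sum_congr rfl fun w _ => by rw [(key w.1 w.2).2, power_split]]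
  rw [← (splitEquiv2 X Y m n).symm.sum_comp]
  simp only [Equiv.apply_symm_apply]
  rw [Fintype.sum_prod_type]
  have e1 : ∀ u v, power μ m u * power μ n v *
      (ecost P (fun i => ((splitEquiv2 X Y m n).symm (u, v)).1 (Fin.castAdd n i))
        (fun i => ((splitEquiv2 X Y m n).symm (u, v)).2 (Fin.castAdd n i)) +
      ecost Q (fun i => ((splitEquiv2 X Y m n).symm (u, v)).1 (Fin.natAdd m i))
        (fun i => ((splitEquiv2 X Y m n).symm (u, v)).2 (Fin.natAdd m i)))
      = (power μ m u * ecost P u.1 u.2) * power μ n v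
        + power μ m u * (power μ n v * ecost Q v.1 v.2) := by
    intro u v
    have a1 : (fun i => ((splitEquiv2 X Y m n).symm (u, v)).1 (Fin.castAdd n i)) = u.1 := by
      funext i; simp [splitEquiv2, splitEquiv]
    have a2 : (fun i => ((splitEquiv2 X Y m n).symm (u, v)).2 (Fin.castAdd n i)) = u.2 := by
      funext i; simp [splitEquiv2, splitEquiv]
    have a3 : (fun i => ((splitEquiv2 X Y m n).symm (u, v)).1 (Fin.natAdd m i)) = v.1 := by
      funext i; simp [splitEquiv2, splitEquiv]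
    have a4 : (fun i => ((splitEquiv2 X Y m n).symm (u, v)).2 (Fin.natAdd m i)) = v.2 := by
      funext i; simp [splitEquiv2, splitEquiv]
    rw [a1, a2, a3, a4]
    ring
  have e2 : ∀ u, ∑ v : (Fin n → X) × (Fin n → Y), ((power μ m u * ecost P u.1 u.2) * power μ n v
        + power μ m u * (power μ n v * ecost Q v.1 v.2))
      = power μ m u * ecost P u.1 u.2
        + power μ m u * ∑ v : (Fin n → X) × (Fin n → Y), power μ n v * ecost Q v.1 v.2 := by
    intro u
    rw [Finset.sum_add_distrib, ← Finset.mul_sum, ← Finset.mul_sum, sum_power_one h1, mul_one]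
  rw [Finset.sum_congr rfl fun u _ => (Finset.sum_congr rfl fun v _ => e1 u v).trans (e2 u)]
  rw [Finset.sum_add_distrib, ← Finset.sum_mul, sum_power_one h1, one_mul]

theorem CCn_nonneg {F : X → Y → Z} {μ : X × Y → ℝ} (h0 : ∀ v, 0 ≤ μ v) (n : ℕ) :
    0 ≤ CCn F μ n := by
  apply Real.sInf_nonneg
  rintro c ⟨P, _, rfl⟩
  exact expBits_nonneg (power_nonneg h0 n) P

theorem CCn_bddBelow {F : X → Y → Z} {μ : X × Y → ℝ} (h0 : ∀ v, 0 ≤ μ v) (n : ℕ) :
    BddBelow {c : ℝ | ∃ P : Prot (Fin n → X) (Fin n → Y) (Fin n → Z),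
      ZeroError P (copies F n) ∧ c = expBits (power μ n) P} := by
  refine ⟨0, ?_⟩
  rintro c ⟨P, _, rfl⟩
  exact expBits_nonneg (power_nonneg h0 n) P

theorem CCn_le {F : X → Y → Z} {μ : X × Y → ℝ} (h0 : ∀ v, 0 ≤ μ v) {n : ℕ}
    {P : Prot (Fin n → X) (Fin n → Y) (Fin n → Z)} (hP : ZeroError P (copies F n)) :
    CCn F μ n ≤ expBits (power μ n) P :=
  csInf_le (CCn_bddBelow h0 n) ⟨P, hP, rfl⟩

theorem CCn_subadditive [Nonempty X] [Fintype Z] [Nonempty Z] {F : X → Y → Z}
    {μ : X × Y → ℝ} (h0 : ∀ v, 0 ≤ μ v) (h1 : ∑ v, μ v = 1) :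
    Subadditive (CCn F μ) := by
  intro m n
  apply le_of_forall_pos_le_add
  intro ε hε
  have hne : ∀ k, Set.Nonempty {c : ℝ | ∃ P : Prot (Fin k → X) (Fin k → Y) (Fin k → Z),
      ZeroError P (copies F k) ∧ c = expBits (power μ k) P} := by
    intro k
    obtain ⟨P, hP⟩ := exists_zeroError (copies F k)
    exact ⟨_, P, hP, rfl⟩
  obtain ⟨c, ⟨P, hP, rfl⟩, hc⟩ := exists_lt_of_csInf_lt (hne m)
    (show CCn F μ m < CCn F μ m + ε / 2 by linarith)
  obtain ⟨c', ⟨Q, hQ, rfl⟩, hc'⟩ := exists_lt_of_csInf_lt (hne n)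
    (show CCn F μ n < CCn F μ n + ε / 2 by linarith)
  obtain ⟨R, hR, hRc⟩ := exists_append (μ := μ) h1 P hP Q hQ
  have := CCn_le h0 hR
  linarith

/-- The amortized communication complexity exists and is at most that of any block. -/
theorem exists_limit [Nonempty X] [Fintype Z] [Nonempty Z] {F : X → Y → Z}
    {μ : X × Y → ℝ} (h0 : ∀ v, 0 ≤ μ v) (h1 : ∑ v, μ v = 1) :
    ∃ L : ℝ, Tendsto (fun n : ℕ => CCn F μ n / n) atTop (𝓝 L) ∧
      ∀ n : ℕ, n ≠ 0 → L ≤ CCn F μ n / n := by
  have hs := CCn_subadditive (F := F) h0 h1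
  have hb : BddBelow (Set.range fun n : ℕ => CCn F μ n / n) := by
    refine ⟨0, ?_⟩
    rintro _ ⟨n, rfl⟩
    exact div_nonneg (CCn_nonneg h0 n) (Nat.cast_nonneg n)
  exact ⟨hs.lim, hs.tendsto_lim hb, fun n hn => hs.lim_le_div hb hn⟩

end Pool.Agent.W975.EA
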