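import Pool.Agent.W975.EA.Power
import Pool.Agent.W975.EA.Lower2

/-!
# The block protocol
-/

open scoped BigOperators
open Finset

namespace Pool.Agent.W975.EA

variable {X Y W : Type} [Fintype X] [Fintype Y] [Fintype W] [DecidableEq W]

/-- The parity of a vector of bits. -/
def parity {l : ℕ} (v : Fin l → Bool) : ZMod 2 := ∑ i, (if v i then 1 else 0)

theorem parity_ne {l : ℕ} {u v : Fin l → Bool} (h : parity u ≠ parity v) : ∃ i, u i ≠ v i := by
  by_contra hcon
  push Not at hcon
  exact h (by rw [show u = v from funext hcon])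

/-- The number of positions where two vectors differ. -/
def diffs {l : ℕ} (u v : Fin l → Bool) : Finset (Fin l) := univ.filter fun i => u i ≠ v i

theorem parity_add {l : ℕ} (u v : Fin l → Bool) :
    parity u + parity v = ((diffs u v).card : ZMod 2) := by
  unfold parity diffs
  rw [← Finset.sum_add_distrib, Finset.card_filter]
  push_cast
  apply Finset.sum_congr rfl
  intro i _
  rcases u i <;> rcases v i <;> simp
  decide

theorem parity_ne_of_one {l : ℕ} {u v : Fin l → Bool} (h : (diffs u v).card = 1) :
    parity u ≠ parity v := by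
  intro heq
  have h1 := parity_add u v
  rw [heq, h] at h1
  have h2 : ∀ a : ZMod 2, a + a = 0 := by decide
  rw [h2] at h1
  exact absurd h1 (by decide)

variable (S : Setup X Y W)

/-- Bob's answers in the second case. -/
def Setup.answers {l : ℕ} (jv : Fin l → Bool) (ws : Fin l → W) (y : Fin l → Y) : Fin l → Bool :=
  fun i => S.tb (y i) (ws i) || xor (jv i) (S.ky (y i))

/-- Bob's answers in the first case. -/
def Setup.answers' {l : ℕ} (jv : Fin l → Bool) (i0 : Fin l) (ws : {i : Fin l // i ≠ i0} → W)
    (y : Fin l → Y) : Fin l → Bool :=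
  fun i => if h : i ≠ i0 then (S.tb (y i) (ws ⟨i, h⟩) || xor (jv i) (S.ky (y i))) else true

open Classical in
/-- The position announced by Bob in the first case. -/
noncomputable def Setup.pos {l : ℕ} (h : 0 < l) (jv : Fin l → Bool) (y : Fin l → Y) : Fin l :=
  if h' : ∃ i, jv i ≠ S.ky (y i) then h'.choose else ⟨0, h⟩

theorem card_W_pow {l C : ℕ} (hW : Fintype.card W = 2 ^ C) :
    Fintype.card (Fin l → W) ≤ 2 ^ (C * l) := by
  rw [Fintype.card_fun, hW, Fintype.card_fin, pow_mul]

theorem card_W_pow' {l C : ℕ} (hW : Fintype.card W = 2 ^ C) (i0 : Fin l) :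
    Fintype.card ({i : Fin l // i ≠ i0} → W) ≤ 2 ^ (C * (l - 1)) := by
  rw [Fintype.card_fun, hW, pow_mul]
  have : Fintype.card {i : Fin l // i ≠ i0} = l - 1 := by
    rw [Fintype.card_subtype_compl]
    simp
  rw [this]

/-- The block protocol. -/
noncomputable def Setup.block {l C : ℕ} (hl : 0 < l) (hW : Fintype.card W = 2 ^ C)
    [Nonempty W] : Prot (Fin l → X) (Fin l → Y) (Fin l → Bool) :=
  haveI : Nonempty (Fin l) := ⟨⟨0, hl⟩⟩
  sayA 1 (by simp) (fun x => parity fun i => S.jx (x i)) fun p =>
  sayB 1 (by simp) (fun y => decide ((parity fun i => S.ky (y i)) ≠ p)) fun v =>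
  if v then
    sayA l (by simp) (fun x i => S.jx (x i)) fun jv =>
    sayB l (by simpa using (Nat.lt_two_pow_self (n := l)).le)
      (fun y => S.pos hl jv y) fun i0 =>
    sayA (C * (l - 1)) (card_W_pow' hW i0) (fun x i => S.wx (x i.1)) fun ws =>
    sayB l (by simp) (fun y => S.answers' jv i0 ws y) fun z =>
    Prot.out z
  else
    sayA (C * l) (card_W_pow hW) (fun x i => S.wx (x i)) fun ws =>
    sayB 1 (by simp) (fun y => decide (∀ i, S.tb (y i) (ws i) = true)) fun u =>
    if u then Prot.out (fun _ => true) else
    sayA l (by simp) (fun x i => S.jx (x i)) fun jv =>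
    sayB l (by simp) (fun y => S.answers jv ws y) fun z =>
    Prot.out z

open Classical in
/-- The number of bits of the block protocol. -/
noncomputable def Setup.blockCost {l : ℕ} (C : ℕ) (x : Fin l → X) (y : Fin l → Y) : ℝ :=
  if (parity fun i => S.ky (y i)) ≠ parity fun i => S.jx (x i) then
    2 + 3 * l + C * (l - 1 : ℕ)
  else if ∀ i, S.tb (y i) (S.wx (x i)) = true then 3 + C * l
  else 3 + C * l + 2 * l

theorem Setup.block_res {l C : ℕ} (hl : 0 < l) (hW : Fintype.card W = 2 ^ C)
    [Nonempty W] (x : Fin l → X) (y : Fin l → Y) :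
    Res (S.block hl hW) x y (copies S.F l x y) (S.blockCost C x y) := by
  classical
  haveI : Nonempty (Fin l) := ⟨⟨0, hl⟩⟩
  have hans : S.answers (fun i => S.jx (x i)) (fun i => S.wx (x i)) y = copies S.F l x y := by
    funext i; rfl
  unfold Setup.block Setup.blockCost
  by_cases hp : (parity fun i => S.ky (y i)) ≠ parity fun i => S.jx (x i)
  · rw [if_pos hp]
    obtain ⟨i1, hi1⟩ := parity_ne hp
    have hex : ∃ i, S.jx (x i) ≠ S.ky (y i) := ⟨i1, hi1.symm⟩
    have hpos : S.jx (x (S.pos hl (fun i => S.jx (x i)) y))
        ≠ S.ky (y (S.pos hl (fun i => S.jx (x i)) y)) := by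
      have e : S.pos hl (fun i => S.jx (x i)) y = hex.choose := by
        unfold Setup.pos
        exact dif_pos hex
      rw [e]
      exact hex.choose_spec
    have hans' : S.answers' (fun i => S.jx (x i)) (S.pos hl (fun i => S.jx (x i)) y)
        (fun i => S.wx (x i.1)) y = copies S.F l x y := by
      funext i
      unfold Setup.answers' copies Setup.F
      by_cases h : i ≠ S.pos hl (fun i => S.jx (x i)) y
      · rw [dif_pos h]
      · rw [dif_neg h]
        push Not at h
        rw [h]
        have : xor (S.jx (x (S.pos hl (fun i => S.jx (x i)) y)))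
            (S.ky (y (S.pos hl (fun i => S.jx (x i)) y))) = true := by
          revert hpos
          rcases S.jx (x (S.pos hl (fun i => S.jx (x i)) y)) <;>
            rcases S.ky (y (S.pos hl (fun i => S.jx (x i)) y)) <;> simp
        rw [this]; simp
    have hfin : Res (Prot.out (S.answers' (fun i => S.jx (x i))
        (S.pos hl (fun i => S.jx (x i)) y) (fun i => S.wx (x i.1)) y) :
          Prot (Fin l → X) (Fin l → Y) (Fin l → Bool)) x y (copies S.F l x y) 0 := by
      rw [hans']; exact Res.out _ _ _
    have key := Res.sayA (k := 1) (h := by simp) (g := fun x : Fin l → X =>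
      parity fun i => S.jx (x i)) (cont := fun p =>
      sayB 1 (by simp) (fun y : Fin l → Y => decide ((parity fun i => S.ky (y i)) ≠ p)) fun v =>
      if v then
        sayA l (by simp) (fun x i => S.jx (x i)) fun jv =>
        sayB l (by simpa using (Nat.lt_two_pow_self (n := l)).le)
          (fun y => S.pos hl jv y) fun i0 =>
        sayA (C * (l - 1)) (card_W_pow' hW i0) (fun x i => S.wx (x i.1)) fun ws =>
        sayB l (by simp) (fun y => S.answers' jv i0 ws y) fun z =>
        Prot.out z
      else
        sayA (C * l) (card_W_pow hW) (fun x i => S.wx (x i)) fun ws =>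
        sayB 1 (by simp) (fun y => decide (∀ i, S.tb (y i) (ws i) = true)) fun u =>
        if u then Prot.out (fun _ => true) else
        sayA l (by simp) (fun x i => S.jx (x i)) fun jv =>
        sayB l (by simp) (fun y => S.answers jv ws y) fun z =>
        Prot.out z) (x := x) (y := y) (z := copies S.F l x y)
      (Res.sayB (by
        rw [decide_eq_true hp]
        simp only [if_true]
        exact Res.sayA (Res.sayB (Res.sayA (Res.sayB hfin)))))
    have e : 0 + (l : ℝ) + ((C * (l - 1) : ℕ) : ℝ) + l + l + ((1 : ℕ) : ℝ) + ((1 : ℕ) : ℝ)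
        = 2 + 3 * l + C * (l - 1 : ℕ) := by
      push_cast; ring
    rw [e] at key
    exact key
  · rw [if_neg hp]
    by_cases ht : ∀ i, S.tb (y i) (S.wx (x i)) = true
    · rw [if_pos ht]
      have hfin : Res (Prot.out (fun _ => true) :
          Prot (Fin l → X) (Fin l → Y) (Fin l → Bool)) x y (copies S.F l x y) 0 := by
        have : copies S.F l x y = fun _ => true := by
          funext i
          unfold copies Setup.F
          rw [ht i]; rfl
        rw [this]; exact Res.out _ _ _
      have key := Res.sayA (k := 1) (h := by simp) (g := fun x : Fin l → X =>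
        parity fun i => S.jx (x i)) (cont := fun p =>
        sayB 1 (by simp) (fun y : Fin l → Y => decide ((parity fun i => S.ky (y i)) ≠ p)) fun v =>
        if v then
          sayA l (by simp) (fun x i => S.jx (x i)) fun jv =>
          sayB l (by simpa using (Nat.lt_two_pow_self (n := l)).le)
            (fun y => S.pos hl jv y) fun i0 =>
          sayA (C * (l - 1)) (card_W_pow' hW i0) (fun x i => S.wx (x i.1)) fun ws =>
          sayB l (by simp) (fun y => S.answers' jv i0 ws y) fun z =>
          Prot.out z
        else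
          sayA (C * l) (card_W_pow hW) (fun x i => S.wx (x i)) fun ws =>
          sayB 1 (by simp) (fun y => decide (∀ i, S.tb (y i) (ws i) = true)) fun u =>
          if u then Prot.out (fun _ => true) else
          sayA l (by simp) (fun x i => S.jx (x i)) fun jv =>
          sayB l (by simp) (fun y => S.answers jv ws y) fun z =>
          Prot.out z) (x := x) (y := y) (z := copies S.F l x y)
        (Res.sayB (by
          rw [decide_eq_false hp]
          simp only [Bool.false_eq_true, if_false]
          exact Res.sayA (Res.sayB (by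
            rw [decide_eq_true ht]
            simp only [if_true]
            exact hfin))))
      have e : 0 + ((1 : ℕ) : ℝ) + ((C * l : ℕ) : ℝ) + ((1 : ℕ) : ℝ) + ((1 : ℕ) : ℝ)
          = 3 + C * l := by
        push_cast; ring
      rw [e] at key
      exact key
    · rw [if_neg ht]
      have hfin : Res (Prot.out (S.answers (fun i => S.jx (x i)) (fun i => S.wx (x i)) y) :
          Prot (Fin l → X) (Fin l → Y) (Fin l → Bool)) x y (copies S.F l x y) 0 := by
        rw [hans]; exact Res.out _ _ _
      have key := Res.sayA (k := 1) (h := by simp) (g := fun x : Fin l → X =>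
        parity fun i => S.jx (x i)) (cont := fun p =>
        sayB 1 (by simp) (fun y : Fin l → Y => decide ((parity fun i => S.ky (y i)) ≠ p)) fun v =>
        if v then
          sayA l (by simp) (fun x i => S.jx (x i)) fun jv =>
          sayB l (by simpa using (Nat.lt_two_pow_self (n := l)).le)
            (fun y => S.pos hl jv y) fun i0 =>
          sayA (C * (l - 1)) (card_W_pow' hW i0) (fun x i => S.wx (x i.1)) fun ws =>
          sayB l (by simp) (fun y => S.answers' jv i0 ws y) fun z =>
          Prot.out z
        else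
          sayA (C * l) (card_W_pow hW) (fun x i => S.wx (x i)) fun ws =>
          sayB 1 (by simp) (fun y => decide (∀ i, S.tb (y i) (ws i) = true)) fun u =>
          if u then Prot.out (fun _ => true) else
          sayA l (by simp) (fun x i => S.jx (x i)) fun jv =>
          sayB l (by simp) (fun y => S.answers jv ws y) fun z =>
          Prot.out z) (x := x) (y := y) (z := copies S.F l x y)
        (Res.sayB (by
          rw [decide_eq_false hp]
          simp only [Bool.false_eq_true, if_false]
          exact Res.sayA (Res.sayB (by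
            rw [decide_eq_false ht]
            simp only [Bool.false_eq_true, if_false]
            exact Res.sayA (Res.sayB hfin)))))
      have e : 0 + (l : ℝ) + l + ((1 : ℕ) : ℝ) + ((C * l : ℕ) : ℝ) + ((1 : ℕ) : ℝ)
          + ((1 : ℕ) : ℝ) = 3 + C * l + 2 * l := by
        push_cast; ring
      rw [e] at key
      exact key

/-- The error indicator of a coordinate. -/
noncomputable def Setup.err (v : X × Y) : ℝ := if S.jx v.1 = S.ky v.2 then 0 else 1

theorem Setup.sum_err (δ : ℝ) : ∑ v : X × Y, S.mu δ v * S.err v = δ := by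
  refine Eq.trans ?_ (S.sum_ne_bits δ)
  apply Finset.sum_congr rfl
  intro v _
  unfold Setup.err
  split_ifs
  · rw [mul_zero]
  · rw [mul_one]

/-- The bound for the cost on the support of the distribution. -/
theorem Setup.blockCost_le {l : ℕ} (C : ℕ) (hl : 0 < l) {δ : ℝ}
    (w : (Fin l → X) × (Fin l → Y)) (hw : power (S.mu δ) l w ≠ 0) :
    S.blockCost C w.1 w.2 ≤ 3 + C * l
      + (3 * l - C) * ∑ i, S.err (w.1 i, w.2 i)
      + C * ∑ i, ∑ j ∈ univ.filter (fun j => j ≠ i),
          S.err (w.1 i, w.2 i) * S.err (w.1 j, w.2 j) := by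
  classical
  set E := (diffs (fun i => S.jx (w.1 i)) (fun i => S.ky (w.2 i))).card with hE
  have hsumE : ∑ i, S.err (w.1 i, w.2 i) = (E : ℝ) := by
    rw [hE]
    unfold diffs
    rw [Finset.card_filter]
    push_cast
    apply Finset.sum_congr rfl
    intro i _
    unfold Setup.err
    by_cases h1 : S.jx (w.1 i) = S.ky (w.2 i)
    · rw [if_pos h1, if_neg (not_not.2 h1)]
    · rw [if_neg h1, if_pos h1]
  have hidem : ∀ v : X × Y, S.err v * S.err v = S.err v := by
    intro v; unfold Setup.err; split_ifs <;> ring
  have hpair : ∑ i, ∑ j ∈ univ.filter (fun j => j ≠ i),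
      S.err (w.1 i, w.2 i) * S.err (w.1 j, w.2 j) = (E : ℝ) * E - E := by
    have h1 : ∀ i : Fin l, ∑ j ∈ univ.filter (fun j => j ≠ i),
        S.err (w.1 i, w.2 i) * S.err (w.1 j, w.2 j)
        = S.err (w.1 i, w.2 i) * E - S.err (w.1 i, w.2 i) := by
      intro i
      rw [← Finset.mul_sum, ← hsumE]
      have h2 : ∑ j ∈ univ.filter (fun j => j ≠ i), S.err (w.1 j, w.2 j)
          = ∑ j, S.err (w.1 j, w.2 j) - S.err (w.1 i, w.2 i) := by
        rw [← Finset.add_sum_erase univ (fun j => S.err (w.1 j, w.2 j)) (Finset.mem_univ i),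
          Finset.filter_ne']
        ring
      rw [h2, mul_sub, hidem]
    rw [Finset.sum_congr rfl fun i _ => h1 i, Finset.sum_sub_distrib, ← Finset.sum_mul, hsumE]
  rw [hsumE, hpair]
  have hlr : (1 : ℝ) ≤ l := by exact_mod_cast hl
  have hC0 : (0 : ℝ) ≤ C := Nat.cast_nonneg C
  have hsupp : ∀ i, S.mu δ (w.1 i, w.2 i) ≠ 0 := by
    intro i hi
    apply hw
    unfold power
    exact Finset.prod_eq_zero (Finset.mem_univ i) hi
  have hl1 : ((l - 1 : ℕ) : ℝ) = l - 1 := by
    rw [Nat.cast_sub hl]; simp
  rcases Nat.lt_or_ge E 2 with hE2 | hE2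
  · have hE01 : E = 0 ∨ E = 1 := by omega
    rcases hE01 with h0 | h0
    · -- no errors
      have heq : ∀ i, S.jx (w.1 i) = S.ky (w.2 i) := by
        intro i
        by_contra hne
        have : i ∈ diffs (fun i => S.jx (w.1 i)) (fun i => S.ky (w.2 i)) := by
          unfold diffs; rw [Finset.mem_filter]; exact ⟨Finset.mem_univ i, hne⟩
        have h00 : (diffs (fun i => S.jx (w.1 i)) (fun i => S.ky (w.2 i))).card = 0 := by
          rw [← hE]; exact h0
        rw [Finset.card_eq_zero.1 h00] at this
        simp at this
      have htb : ∀ i, S.tb (w.2 i) (S.wx (w.1 i)) = true := by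
        intro i
        by_contra hne
        apply hsupp i
        unfold Setup.mu
        rw [if_pos (heq i), if_neg hne]
      unfold Setup.blockCost
      rw [if_neg, if_pos htb, h0]
      · simp
      · push Not
        rw [show (fun i => S.ky (w.2 i)) = fun i => S.jx (w.1 i) from
          funext fun i => (heq i).symm]
    · -- one error
      have hne : (parity fun i => S.ky (w.2 i)) ≠ parity fun i => S.jx (w.1 i) :=
        (parity_ne_of_one (by rw [← hE]; exact h0)).symm
      unfold Setup.blockCost
      rw [if_pos hne, h0, hl1]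
      push_cast
      nlinarith
  · -- at least two errors
    have hEr : (2 : ℝ) ≤ E := by exact_mod_cast hE2
    have hb : S.blockCost C w.1 w.2 ≤ 3 + C * l + 3 * l := by
      unfold Setup.blockCost
      split_ifs
      · rw [hl1]; nlinarith
      · linarith
      · linarith
    have h1 : 3 * (l : ℝ) ≤ 3 * l * E := by nlinarith
    have h2 : 0 ≤ (C : ℝ) * (E * E - 2 * E) := mul_nonneg hC0 (by nlinarith)
    nlinarith

/-- The expected cost of the block protocol. -/
theorem Setup.expBits_block {l C : ℕ} (hl : 0 < l) (hW : Fintype.card W = 2 ^ C)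
    [Nonempty W] {δ : ℝ} (h0 : 0 ≤ δ) (h1 : δ ≤ 1) :
    expBits (power (S.mu δ) l) (S.block hl hW) ≤
      3 + C * l + (3 * l - C) * (l * δ) + C * (l * (l - 1) * δ ^ 2) := by
  classical
  have hmu1 := S.sum_mu δ
  have hpn : ∀ w, 0 ≤ power (S.mu δ) l w := power_nonneg (S.mu_nonneg h0 h1) l
  rw [expBits_eq]
  calc ∑ w : (Fin l → X) × (Fin l → Y), power (S.mu δ) l w * ecost (S.block hl hW) w.1 w.2
      ≤ ∑ w : (Fin l → X) × (Fin l → Y), power (S.mu δ) l w * (3 + C * l
      + (3 * l - C) * ∑ i, S.err (w.1 i, w.2 i)
      + C * ∑ i, ∑ j ∈ univ.filter (fun j => j ≠ i),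
          S.err (w.1 i, w.2 i) * S.err (w.1 j, w.2 j)) := by
        apply Finset.sum_le_sum
        intro w _
        rw [(S.block_res hl hW w.1 w.2).2]
        by_cases hw : power (S.mu δ) l w = 0
        · rw [hw]; simp
        · exact mul_le_mul_of_nonneg_left (S.blockCost_le C hl w hw) (hpn w)
    _ = (3 + C * l) * ∑ w : (Fin l → X) × (Fin l → Y), power (S.mu δ) l w
        + (3 * l - C) * ∑ i, ∑ w : (Fin l → X) × (Fin l → Y),
            power (S.mu δ) l w * S.err (w.1 i, w.2 i)
        + C * ∑ i, ∑ j ∈ univ.filter (fun j => j ≠ i), ∑ w : (Fin l → X) × (Fin l → Y),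
            power (S.mu δ) l w * (S.err (w.1 i, w.2 i) * S.err (w.1 j, w.2 j)) := by
        have e1 : ∀ w : (Fin l → X) × (Fin l → Y), power (S.mu δ) l w * (3 + C * l
          + (3 * l - C) * ∑ i, S.err (w.1 i, w.2 i)
          + C * ∑ i, ∑ j ∈ univ.filter (fun j => j ≠ i),
              S.err (w.1 i, w.2 i) * S.err (w.1 j, w.2 j))
            = (3 + C * l) * power (S.mu δ) l w
            + (3 * l - C) * ∑ i, power (S.mu δ) l w * S.err (w.1 i, w.2 i)
            + C * ∑ i, ∑ j ∈ univ.filter (fun j => j ≠ i),
              power (S.mu δ) l w * (S.err (w.1 i, w.2 i) * S.err (w.1 j, w.2 j)) := by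
          intro w
          have a1 : ∑ i, power (S.mu δ) l w * S.err (w.1 i, w.2 i)
              = power (S.mu δ) l w * ∑ i, S.err (w.1 i, w.2 i) := by
            rw [Finset.mul_sum]
          have a2 : ∑ i, ∑ j ∈ univ.filter (fun j => j ≠ i),
              power (S.mu δ) l w * (S.err (w.1 i, w.2 i) * S.err (w.1 j, w.2 j))
              = power (S.mu δ) l w * ∑ i, ∑ j ∈ univ.filter (fun j => j ≠ i),
              S.err (w.1 i, w.2 i) * S.err (w.1 j, w.2 j) := by
            rw [Finset.mul_sum]
            apply Finset.sum_congr rfl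
            intro i _
            rw [Finset.mul_sum]
          rw [a1, a2]
          ring
        rw [Finset.sum_congr rfl fun w _ => e1 w, Finset.sum_add_distrib,
          Finset.sum_add_distrib, ← Finset.mul_sum, ← Finset.mul_sum, ← Finset.mul_sum,
          Finset.sum_comm]
        congr 2
        rw [Finset.sum_comm]
        apply Finset.sum_congr rfl
        intro i _
        rw [Finset.sum_comm]
    _ = 3 + C * l + (3 * l - C) * (l * δ) + C * (l * (l - 1) * δ ^ 2) := by
        rw [sum_power_one hmu1]
        have e2 : ∀ i : Fin l, ∑ w : (Fin l → X) × (Fin l → Y),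
            power (S.mu δ) l w * S.err (w.1 i, w.2 i) = δ := by
          intro i
          rw [sum_power_single hmu1 l i S.err, S.sum_err]
        have e3 : ∀ i : Fin l, ∑ j ∈ univ.filter (fun j => j ≠ i),
            ∑ w : (Fin l → X) × (Fin l → Y),
            power (S.mu δ) l w * (S.err (w.1 i, w.2 i) * S.err (w.1 j, w.2 j))
            = (l - 1) * δ ^ 2 := by
          intro i
          have e4 : ∀ j ∈ univ.filter (fun j => j ≠ i),
              ∑ w : (Fin l → X) × (Fin l → Y),
              power (S.mu δ) l w * (S.err (w.1 i, w.2 i) * S.err (w.1 j, w.2 j)) = δ ^ 2 := by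
            intro j hj
            rw [Finset.mem_filter] at hj
            rw [sum_power_pair hmu1 l i j (Ne.symm hj.2) S.err S.err, S.sum_err]
            ring
          rw [Finset.sum_congr rfl e4, Finset.sum_const, Finset.filter_ne', Finset.card_erase_of_mem
            (Finset.mem_univ i), Finset.card_univ, Fintype.card_fin, nsmul_eq_mul,
            Nat.cast_sub hl]
          simp
        rw [Finset.sum_congr rfl fun i _ => e2 i, Finset.sum_congr rfl fun i _ => e3 i,
          Finset.sum_const, Finset.sum_const, Finset.card_univ, Fintype.card_fin,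
          nsmul_eq_mul, nsmul_eq_mul]
        ring

end Pool.Agent.W975.EA
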